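import Pool.Agent.Helper74.HamSat.Zone

set_option autoImplicit false
open Classical

namespace Pool.Agent.Helper74.HamSat

theorem win_card {V : Type*} [DecidableEq V] {T : List V} (h : T.Nodup) {p k : ℕ} (hp : p + k ≤ T.length) :
    ((T.drop p).take k).toFinset.card = k := by
  rw [List.toFinset_card_of_nodup (h.sublist ((List.take_sublist _ _).trans
    (List.drop_sublist _ _)))]
  rw [List.length_take, List.length_drop]
  omega

theorem mem_win_append {V : Type*} {A B : List V} {p k : ℕ} {v : V}
    (h : v ∈ ((A ++ B).drop p).take k) : v ∈ A.drop p ∨ v ∈ B.drop (p - A.length) := by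
  have h1 := List.mem_of_mem_take h
  rw [List.drop_append] at h1
  exact List.mem_append.mp h1

theorem mem_win_append' {V : Type*} {A B : List V} {p k : ℕ} {v : V}
    (h : v ∈ ((A ++ B).drop p).take k) (hp : p ≤ A.length) :
    v ∈ A.drop p ∨ v ∈ B.take (k - (A.length - p)) := by
  rw [List.drop_append, List.take_append] at h
  rcases List.mem_append.mp h with h | h
  · exact Or.inl (List.mem_of_mem_take h)
  · right
    have : p - A.length = 0 := by omega
    rw [this, List.drop_zero, List.length_drop] at h
    exact h

theorem drop_subset_of_le {V : Type*} {A : List V} {p q : ℕ} (h : p ≤ q) {v : V}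
    (hv : v ∈ A.drop q) : v ∈ A.drop p := by
  have : A.drop q = (A.drop p).drop (q - p) := by
    rw [List.drop_drop]; congr 1; omega
  rw [this] at hv
  exact List.mem_of_mem_drop hv

namespace Geo

variable {n : ℕ} (G : Geo n)

/-- special vertices of the supergroup `i` -/
def spec (i : ℕ) (v : Fin n) : Prop := ∃ t, t < G.τ ∧ v = G.φ i t

variable {G}

theorem spec_inU {i : ℕ} (hi : i < G.N) {v : Fin n} (h : G.spec i v) : G.inU i v := by
  obtain ⟨t, ht, rfl⟩ := h
  exact ⟨G.φ_z i t hi ht, G.φ_h i t hi ht⟩

theorem near_refl (u : Fin n) : G.near u u := ⟨by omega, by omega⟩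

theorem spec_not_near {i j : ℕ} (hi : i < G.N) (hj : j < G.N) {u v : Fin n} (hu : G.spec i u)
    (hv : G.spec j v) (huv : u ≠ v) : ¬ G.near u v := by
  obtain ⟨t, ht, rfl⟩ := hu
  obtain ⟨t', ht', rfl⟩ := hv
  intro h
  obtain ⟨h1, h2⟩ := G.φ_sep i t j t' (G.φ j t') hi ht hj ht' h (near_refl _)
  subst h1 h2
  exact huv rfl

theorem keys_spec {s i : ℕ} (hτ : 2 * s + 1 ≤ G.τ) {v : Fin n} (h : v ∈ G.Keys s i) :
    G.spec i v := by
  obtain ⟨t, ht, rfl⟩ := Finset.mem_image.mp h
  exact ⟨t, by have := Finset.mem_range.mp ht; omega, rfl⟩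

theorem side_clean {k l s i : ℕ} (hkl : k = l + s) (hl : 2 ≤ l) (hs : 1 ≤ s)
    (hi : i < G.N) (E X Ks Fl S1 S2 : List (Fin n)) (x κ : Fin n) (e : Finset (Fin n))
    (hEe : E.toFinset = e) (hEk : E.length = k)
    (hXl : X.length + 1 = k * (2 * s - 1)) (hKl : Ks.length = s) (hFl : Fl.length + 2 = l)
    (hS1 : k ≤ S1.length + 1)
    (hscatE : ∀ u ∈ E.drop s, ∀ v ∈ E.drop s, u ≠ v → u ≠ G.z → v ≠ G.z → ¬ G.near u v)
    (hlow : ∀ v ∈ E.drop s, v ≠ G.z → i ≤ G.h v)
    (hcnt : ∀ p, s ≤ p → p < k → ((E.drop p).toFinset.filter (fun v => ¬ G.inU i v)).card + 1 ≤ l)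
    (hX : ∀ v ∈ X, G.spec i v) (hXfar : ∀ v ∈ X, ∀ u ∈ E, u ≠ G.z → ¬ G.near u v)
    (hx : x = G.z ∨ G.spec i x)
    (hτ : 2 * s + 1 ≤ G.τ)
    (hK : ∀ v ∈ Ks, v ∈ G.Keys s i) (hκ : κ ∈ G.Keys s i)
    (hF : ∀ v ∈ Fl, G.spec i v)
    (hS1g : ∀ v ∈ S1, G.g v = G.g κ) (hSz : G.z ∉ S1 ++ S2)
    (hSn : AW k 1 0 G.Narrow (S1 ++ S2))
    (hnd : (E ++ (X ++ [x] ++ Ks ++ Fl ++ [κ]) ++ (S1 ++ S2)).Nodup) :
    AW k s 0 (· ∈ insert e (G.H0 k l s)) (E ++ (X ++ [x] ++ Ks ++ Fl ++ [κ]) ++ (S1 ++ S2)) := by
  have hkpos : 3 ≤ k := by omega
  have hXk : k ≤ X.length + 1 := by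
    rw [hXl]
    exact Nat.le_mul_of_pos_right _ (by omega)
  have hzone : ∀ f : Finset (Fin n), G.Zone k s i f → f ∈ insert e (G.H0 k l s) := by
    intro f hf
    exact Finset.mem_insert_of_mem (Finset.mem_filter.mpr ⟨Finset.mem_univ _, Or.inl ⟨i, hf⟩⟩)
  have hKspec : ∀ v ∈ Ks, G.spec i v := fun v hv => keys_spec hτ (hK v hv)
  have hκspec : G.spec i κ := keys_spec hτ hκ
  -- P1
  have P1 : AW k s 0 (· ∈ insert e (G.H0 k l s)) (E ++ X) := by
    intro p hp hpl
    have hndX : (E ++ X).Nodup := by
      refine hnd.sublist ?_
      simp only [List.append_assoc]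
      rw [← List.append_assoc E X]
      exact List.sublist_append_left _ _
    rcases Nat.eq_zero_or_pos p with h0 | hpos
    · subst h0
      have : ((E ++ X).drop 0).take k = E := by
        rw [List.drop_zero, List.take_append_of_le_length (by omega),
          List.take_of_length_le (by omega)]
      simp only [this, hEe]
      exact Finset.mem_insert_self _ _
    have hsp : s ≤ p := Nat.le_of_dvd hpos (by simpa using hp)
    apply hzone
    have hmem : ∀ v ∈ (((E ++ X).drop p).take k).toFinset, v ∈ E.drop p ∨ v ∈ X := by
      intro v hv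
      rcases mem_win_append (List.mem_toFinset.mp hv) with h | h
      · exact Or.inl h
      · exact Or.inr (List.mem_of_mem_drop h)
    refine G.zone_of hkl (win_card hndX hpl) ?_ ?_ ?_
    · intro u hu v hv huv huz hvz
      rcases hmem u hu with hu' | hu'
      · rcases hmem v hv with hv' | hv'
        · exact hscatE u (drop_subset_of_le hsp hu') v (drop_subset_of_le hsp hv') huv huz hvz
        · exact hXfar v hv' u (List.mem_of_mem_drop hu') huz
      · rcases hmem v hv with hv' | hv'
        · intro hn
          exact hXfar u hu' v (List.mem_of_mem_drop hv') hvz (G.near_symm hn)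
        · exact spec_not_near hi hi (hX u hu') (hX v hv') huv
    · have hsub : (((E ++ X).drop p).take k).toFinset.filter (fun v => ¬ G.inU i v) ⊆
          (E.drop p).toFinset.filter (fun v => ¬ G.inU i v) := by
        intro v hv
        obtain ⟨hv1, hv2⟩ := Finset.mem_filter.mp hv
        rcases hmem v hv1 with h | h
        · exact Finset.mem_filter.mpr ⟨List.mem_toFinset.mpr h, hv2⟩
        · exact absurd (spec_inU hi (hX v h)) hv2
      have h1 := Finset.card_le_card hsub
      by_cases hpk : p < k
      · have := hcnt p hsp hpk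
        omega
      · have : E.drop p = [] := List.drop_eq_nil_of_le (by omega)
        rw [this] at h1
        simp only [List.toFinset_nil, Finset.filter_empty, Finset.card_empty] at h1
        omega
    · intro v hv hvz
      rcases hmem v hv with h | h
      · exact hlow v (drop_subset_of_le hsp h) hvz
      · exact le_of_eq (spec_inU hi (hX v h)).2.symm
  -- P2
  have P2 : AW k s (0 + E.length) (· ∈ insert e (G.H0 k l s))
      (X ++ ([x] ++ Ks ++ Fl ++ [κ])) := by
    intro p hp hpl
    have hnd2 : (X ++ ([x] ++ Ks ++ Fl ++ [κ])).Nodup := by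
      refine hnd.sublist ?_
      simp only [List.append_assoc]
      refine List.Sublist.trans ?_ (List.sublist_append_right _ _)
      simp only [← List.append_assoc]
      refine (List.sublist_append_left _ _).trans (List.sublist_append_left _ _)
    apply hzone
    have hmem : ∀ v ∈ (((X ++ ([x] ++ Ks ++ Fl ++ [κ])).drop p).take k).toFinset,
        v = x ∨ G.spec i v := by
      intro v hv
      have h1 := List.mem_of_mem_drop (List.mem_of_mem_take (List.mem_toFinset.mp hv))
      simp only [List.mem_append, List.mem_singleton] at h1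
      rcases h1 with h | ((h | h) | h) | h
      · exact Or.inr (hX v h)
      · exact Or.inl h
      · exact Or.inr (hKspec v h)
      · exact Or.inr (hF v h)
      · subst h; exact Or.inr hκspec
    have hmem2 : ∀ v ∈ (((X ++ ([x] ++ Ks ++ Fl ++ [κ])).drop p).take k).toFinset,
        v ≠ G.z → G.spec i v := by
      intro v hv hvz
      rcases hmem v hv with h | h
      · subst h
        rcases hx with h | h
        · exact absurd h hvz
        · exact h
      · exact h
    refine G.zone_of hkl (win_card hnd2 hpl) ?_ ?_ ?_
    · intro u hu v hv huv huz hvz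
      exact spec_not_near hi hi (hmem2 u hu huz) (hmem2 v hv hvz) huv
    · have hsub : (((X ++ ([x] ++ Ks ++ Fl ++ [κ])).drop p).take k).toFinset.filter
          (fun v => ¬ G.inU i v) ⊆ {x} := by
        intro v hv
        obtain ⟨hv1, hv2⟩ := Finset.mem_filter.mp hv
        rcases hmem v hv1 with h | h
        · exact Finset.mem_singleton.mpr h
        · exact absurd (spec_inU hi h) hv2
      have h1 := Finset.card_le_card hsub
      rw [Finset.card_singleton] at h1
      omega
    · intro v hv hvz
      exact le_of_eq (spec_inU hi (hmem2 v hv hvz)).2.symm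
  -- P3
  have hQl : (Ks ++ Fl ++ [κ]).length + 1 = k := by
    simp only [List.length_append, List.length_singleton]
    omega
  have P3 : AW k s 0 (· ∈ insert e (G.H0 k l s)) ((Ks ++ Fl ++ [κ]) ++ (S1 ++ S2)) := by
    intro p hp hpl
    have hnd3 : ((Ks ++ Fl ++ [κ]) ++ (S1 ++ S2)).Nodup := by
      refine hnd.sublist ?_
      have : E ++ (X ++ [x] ++ Ks ++ Fl ++ [κ]) ++ (S1 ++ S2) =
          (E ++ (X ++ [x])) ++ ((Ks ++ Fl ++ [κ]) ++ (S1 ++ S2)) := by
        simp only [List.append_assoc]
      rw [this]
      exact List.sublist_append_right _ _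
    have hQspec : ∀ v ∈ Ks ++ Fl ++ [κ], G.spec i v := by
      intro v hv
      simp only [List.mem_append, List.mem_singleton] at hv
      rcases hv with (h | h) | h
      · exact hKspec v h
      · exact hF v h
      · subst h; exact hκspec
    have hS1U : ∀ v ∈ S1, G.inU i v := by
      intro v hv
      refine ⟨?_, ?_⟩
      · intro h
        subst h
        exact hSz (List.mem_append_left _ hv)
      · rw [G.h_of_g v κ (hS1g v hv)]
        exact (spec_inU hi hκspec).2
    have hcard := win_card hnd3 hpl
    refine Finset.mem_insert_of_mem (Finset.mem_filter.mpr ⟨Finset.mem_univ _, Or.inr ?_⟩)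
    rcases Nat.eq_zero_or_pos p with h0 | hpos
    · left
      subst h0
      refine ⟨i, hcard, ?_, ?_⟩
      · intro v hv
        rcases mem_win_append' (List.mem_toFinset.mp hv) (by omega) with h | h
        · exact spec_inU hi (hQspec v (List.mem_of_mem_drop h))
        · rw [List.take_append_of_le_length (by omega)] at h
          exact hS1U v (List.mem_of_mem_take h)
      · have hsub : insert κ Ks.toFinset ⊆
            ((((Ks ++ Fl ++ [κ]) ++ (S1 ++ S2)).drop 0).take k).toFinset ∩ G.Keys s i := by
          intro v hv
          rw [Finset.mem_inter]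
          have hv' : v ∈ Ks ++ Fl ++ [κ] ∧ v ∈ G.Keys s i := by
            rcases Finset.mem_insert.mp hv with h | h
            · subst h
              exact ⟨by simp, hκ⟩
            · have := List.mem_toFinset.mp h
              exact ⟨by simp [this], hK v this⟩
          refine ⟨?_, hv'.2⟩
          rw [List.mem_toFinset, List.drop_zero, List.take_append]
          refine List.mem_append_left _ ?_
          rw [List.take_of_length_le (by omega)]
          exact hv'.1
        have h1 := Finset.card_le_card hsub
        have hκK : κ ∉ Ks.toFinset := by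
          rw [List.mem_toFinset]
          intro hmem
          have : (Ks ++ (Fl ++ [κ] ++ (S1 ++ S2))).Nodup := by
            simpa only [List.append_assoc] using hnd3
          exact (List.disjoint_of_nodup_append this) hmem (by simp)
        rw [Finset.card_insert_of_notMem hκK, List.toFinset_card_of_nodup (by
          refine hnd3.sublist ?_
          simp only [List.append_assoc]
          exact List.sublist_append_left _ _), hKl] at h1
        exact h1
    · right
      have hsp : s ≤ p := Nat.le_of_dvd hpos (by simpa using hp)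
      refine ⟨hcard, ?_, ?_⟩
      · intro hz
        have h1 := List.mem_of_mem_drop (List.mem_of_mem_take (List.mem_toFinset.mp hz))
        rcases List.mem_append.mp h1 with h | h
        · exact (spec_inU hi (hQspec _ h)).1 rfl
        · exact hSz h
      · intro D hD hDl hDs
        have hpair : ∀ C : Finset (Fin n), (∀ u ∈ C, ∀ v ∈ C, G.near u v) →
            (∀ u ∈ C, u ≠ G.z) → (D.filter (fun v => v ∈ C)).card ≤ 1 := by
          intro C hC hCz
          rw [Finset.card_le_one]
          intro a ha b hb
          by_contra hab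
          obtain ⟨ha1, ha2⟩ := Finset.mem_filter.mp ha
          obtain ⟨hb1, hb2⟩ := Finset.mem_filter.mp hb
          exact hDs a ha1 b hb1 hab (hCz a ha2) (hCz b hb2) (hC a ha2 b hb2)
        by_cases hpk : p + 1 < k
        · -- window meets Q
          let C2 : Finset (Fin n) := insert κ S1.toFinset
          have hC2 : ∀ u ∈ C2, G.g u = G.g κ := by
            intro u hu
            rcases Finset.mem_insert.mp hu with h | h
            · rw [h]
            · exact hS1g u (List.mem_toFinset.mp h)
          have h1 := hpair C2 (by
            intro u hu v hv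
            have h1 := hC2 u hu
            have h2 := hC2 v hv
            constructor <;> omega) (by
            intro u hu
            rcases Finset.mem_insert.mp hu with h | h
            · rw [h]; exact (spec_inU hi hκspec).1
            · exact (hS1U u (List.mem_toFinset.mp h)).1)
          have h2 : D ⊆ D.filter (fun v => v ∈ C2) ∪ Fl.toFinset := by
            intro v hv
            have hv2 := hD hv
            rw [Finset.mem_union]
            rcases mem_win_append' (List.mem_toFinset.mp hv2) (by omega) with h | h
            · have h3 := drop_subset_of_le hsp h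
              have h4 : (Ks ++ Fl ++ [κ]).drop s = Fl ++ [κ] := by
                rw [List.append_assoc, ← hKl, List.drop_left]
              rw [h4] at h3
              rcases List.mem_append.mp h3 with h5 | h5
              · exact Or.inr (List.mem_toFinset.mpr h5)
              · left
                rw [List.mem_singleton] at h5
                exact Finset.mem_filter.mpr ⟨hv, by rw [h5]; exact Finset.mem_insert_self _ _⟩
            · left
              rw [List.take_append_of_le_length (by omega)] at h
              exact Finset.mem_filter.mpr ⟨hv, Finset.mem_insert_of_mem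
                (List.mem_toFinset.mpr (List.mem_of_mem_take h))⟩
          have h3 := Finset.card_le_card h2
          have h4 := Finset.card_union_le (D.filter (fun v => v ∈ C2)) Fl.toFinset
          have h5 : Fl.toFinset.card ≤ Fl.length := List.toFinset_card_le _
          omega
        · -- window inside S
          have h1 : (((Ks ++ Fl ++ [κ]) ++ (S1 ++ S2)).drop p).take k =
              ((S1 ++ S2).drop (p - (Ks ++ Fl ++ [κ]).length)).take k := by
            rw [List.drop_append, List.drop_eq_nil_of_le (by omega), List.nil_append]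
          have h2 := hSn (p - (Ks ++ Fl ++ [κ]).length) (one_dvd _) (by
            rw [List.length_append] at hpl
            omega)
          rw [← h1] at h2
          have h3 : 1 < D.card := by omega
          obtain ⟨a, ha, b, hb, hab⟩ := Finset.one_lt_card.mp h3
          have hz : ∀ u ∈ D, u ≠ G.z := by
            intro u hu hz
            have h4 := hD hu
            rw [h1] at h4
            have h5 := List.mem_of_mem_drop (List.mem_of_mem_take (List.mem_toFinset.mp h4))
            rw [hz] at h5
            exact hSz h5
          exact hDs a ha b hb hab (hz a ha) (hz b hb) (h2 a (hD ha) b (hD hb))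
  -- glue
  have g1 := AW.glue P1 P2 hXk
  have hlen : (E ++ (X ++ [x])).length = 2 * s * k := by
    simp only [List.length_append, List.length_singleton]
    rw [hEk]
    have : k * (2 * s - 1) + k = 2 * s * k := by
      obtain ⟨m, rfl⟩ : ∃ m, s = m + 1 := ⟨s - 1, by omega⟩
      have : 2 * (m + 1) - 1 = 2 * m + 1 := by omega
      rw [this]; ring
    omega
  have g2 : AW k s (0 + (E ++ (X ++ [x])).length) (· ∈ insert e (G.H0 k l s))
      ((Ks ++ Fl ++ [κ]) ++ (S1 ++ S2)) := by
    refine P3.congr_mod ?_
    rw [hlen, Nat.zero_add, Nat.mul_assoc, Nat.mul_left_comm, Nat.mul_mod_right, Nat.zero_mod]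
  have g3 := AW.glue (X := E ++ (X ++ [x])) (Y := Ks ++ Fl ++ [κ]) (Z := S1 ++ S2)
    (by simpa only [List.append_assoc] using g1) g2 (by omega)
  simpa only [List.append_assoc] using g3

theorem side_dirty {k l s : ℕ} (hkl : k = l + s) (hl : 2 ≤ l) (hs : 1 ≤ s)
    (E S1 S2 : List (Fin n)) (u v : Fin n) (e : Finset (Fin n))
    (hEe : E.toFinset = e) (hEk : E.length = k)
    (hS1 : k ≤ S1.length + 1)
    (hu : E.getLast? = some u) (hv : v ∈ E.drop s) (huv : v ≠ u) (hnear : G.near u v)
    (hz : G.z ∉ E.drop s)
    (hS1g : ∀ v ∈ S1, G.g v = G.g u) (hSz : G.z ∉ S1 ++ S2)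
    (hSn : AW k 1 0 G.Narrow (S1 ++ S2))
    (hnd : (E ++ (S1 ++ S2)).Nodup) :
    AW k s 0 (· ∈ insert e (G.H0 k l s)) (E ++ (S1 ++ S2)) := by
  intro p hp hpl
  have hcard := win_card hnd hpl
  rcases Nat.eq_zero_or_pos p with h0 | hpos
  · subst h0
    have : ((E ++ (S1 ++ S2)).drop 0).take k = E := by
      rw [List.drop_zero, List.take_append_of_le_length (by omega),
        List.take_of_length_le (by omega)]
    simp only [this, hEe]
    exact Finset.mem_insert_self _ _
  have hsp : s ≤ p := Nat.le_of_dvd hpos (by simpa using hp)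
  refine Finset.mem_insert_of_mem (Finset.mem_filter.mpr ⟨Finset.mem_univ _, Or.inr (Or.inr ?_)⟩)
  have hzf : ∀ w ∈ (((E ++ (S1 ++ S2)).drop p).take k).toFinset, w ≠ G.z := by
    intro w hw hwz
    rcases mem_win_append (List.mem_toFinset.mp hw) with h | h
    · have := drop_subset_of_le hsp h
      rw [hwz] at this
      exact hz this
    · have := List.mem_of_mem_drop h
      rw [hwz] at this
      exact hSz this
  refine ⟨hcard, fun h => hzf _ h rfl, ?_⟩
  intro D hD hDl hDs
  have hDz : ∀ w ∈ D, w ≠ G.z := fun w hw => hzf w (hD hw)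
  by_cases hpk : p < k
  · have huE : u ∈ E.drop s := by
      rw [List.getLast?_eq_some_iff] at hu
      obtain ⟨ys, hys⟩ := hu
      have : ys.length + 1 = k := by rw [← hEk, hys]; simp
      rw [hys, List.drop_append_of_le_length (by omega)]
      simp
    -- elements of D outside C1
    let C2 : Finset (Fin n) := insert u S1.toFinset
    have hC2 : ∀ w ∈ C2, G.g w = G.g u := by
      intro w hw
      rcases Finset.mem_insert.mp hw with h | h
      · rw [h]
      · exact hS1g w (List.mem_toFinset.mp h)
    have h1 : (D.filter (fun w => w ∈ C2)).card ≤ 1 := by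
      rw [Finset.card_le_one]
      intro a ha b hb
      by_contra hab
      obtain ⟨ha1, ha2⟩ := Finset.mem_filter.mp ha
      obtain ⟨hb1, hb2⟩ := Finset.mem_filter.mp hb
      have h1 := hC2 a ha2
      have h2 := hC2 b hb2
      exact hDs a ha1 b hb1 hab (hDz a ha1) (hDz b hb1) ⟨by omega, by omega⟩
    have h2 : D ⊆ D.filter (fun w => w ∈ C2) ∪ ((E.drop p).toFinset.erase u) := by
      intro w hw
      rw [Finset.mem_union]
      rcases mem_win_append' (List.mem_toFinset.mp (hD hw)) (by omega) with h | h
      · by_cases hwu : w = u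
        · left
          exact Finset.mem_filter.mpr ⟨hw, by rw [hwu]; exact Finset.mem_insert_self _ _⟩
        · right
          exact Finset.mem_erase.mpr ⟨hwu, List.mem_toFinset.mpr h⟩
      · left
        rw [List.take_append_of_le_length (by omega)] at h
        exact Finset.mem_filter.mpr ⟨hw, Finset.mem_insert_of_mem
          (List.mem_toFinset.mpr (List.mem_of_mem_take h))⟩
    have hup : u ∈ (E.drop p).toFinset := by
      rw [List.getLast?_eq_some_iff] at hu
      obtain ⟨ys, hys⟩ := hu
      have : ys.length + 1 = k := by rw [← hEk, hys]; simp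
      rw [hys, List.drop_append_of_le_length (by omega)]
      simp
    have h3 : ((E.drop p).toFinset.erase u).card ≤ k - p - 1 := by
      rw [Finset.card_erase_of_mem hup]
      have := List.toFinset_card_le (E.drop p)
      rw [List.length_drop, hEk] at this
      omega
    have h4 := Finset.card_le_card h2
    have h5 := Finset.card_union_le (D.filter (fun w => w ∈ C2)) ((E.drop p).toFinset.erase u)
    have hps : p = s := by omega
    -- v ∈ D
    have hvmem : v ∈ (E.drop p).toFinset.erase u := by
      rw [hps]
      exact Finset.mem_erase.mpr ⟨huv, List.mem_toFinset.mpr hv⟩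
    have hvD : v ∈ D := by
      by_contra hcon
      have h6 : D ⊆ D.filter (fun w => w ∈ C2) ∪ (((E.drop p).toFinset.erase u).erase v) := by
        intro w hw
        rcases Finset.mem_union.mp (h2 hw) with h | h
        · exact Finset.mem_union_left _ h
        · refine Finset.mem_union_right _ (Finset.mem_erase.mpr ⟨?_, h⟩)
          rintro rfl
          exact hcon hw
      have h7 := Finset.card_le_card h6
      have h8 := Finset.card_union_le (D.filter (fun w => w ∈ C2))
        (((E.drop p).toFinset.erase u).erase v)
      rw [Finset.card_erase_of_mem hvmem] at h8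
      omega
    have hy : ∃ y ∈ D, y ∈ C2 := by
      by_contra hcon
      push Not at hcon
      have h6 : D.filter (fun w => w ∈ C2) = ∅ := Finset.filter_eq_empty_iff.mpr
        (fun w hw => hcon w hw)
      have h7 : (D.filter (fun w => w ∈ C2)).card = 0 := by rw [h6, Finset.card_empty]
      omega
    obtain ⟨y, hyD, hyC⟩ := hy
    have hyv : y ≠ v := by
      rintro rfl
      rcases Finset.mem_insert.mp hyC with h | h
      · exact huv h
      · exact (List.disjoint_of_nodup_append hnd) (List.mem_of_mem_drop hv)
          (List.mem_append_left _ (List.mem_toFinset.mp h))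
    refine hDs y hyD v hvD hyv (hDz y hyD) (hDz v hvD) ?_
    have := hC2 y hyC
    exact ⟨by rw [this]; exact hnear.1, by rw [this]; exact hnear.2⟩
  · have h1 : ((E ++ (S1 ++ S2)).drop p).take k =
        ((S1 ++ S2).drop (p - E.length)).take k := by
      rw [List.drop_append, List.drop_eq_nil_of_le (by omega), List.nil_append]
    have h2 := hSn (p - E.length) (one_dvd _) (by
      rw [List.length_append] at hpl
      omega)
    rw [← h1] at h2
    have h3 : 1 < D.card := by omega
    obtain ⟨a, ha, b, hb, hab⟩ := Finset.one_lt_card.mp h3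
    exact hDs a ha b hb hab (hDz a ha) (hDz b hb) (h2 a (hD ha) b (hD hb))

end Geo

end Pool.Agent.Helper74.HamSat
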