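import Pool.Agent.Helper74.HamSat.Zone

set_option autoImplicit false
open Classical

namespace Pool.Agent.Helper74.HamSat

def cellR (c d : ℕ × ℕ) : Prop := c.1 ≤ d.1 + 1 ∧ d.1 ≤ c.1 + 1

structure Seg (lo hi a b : ℕ) (π : List (ℕ × ℕ)) : Prop where
  nd : π.Nodup
  mem : ∀ c, c ∈ π ↔ (lo ≤ c.1 ∧ c.1 < hi ∧ c.2 < 2)
  ch : π.IsChain cellR
  hd : ∃ x π', π = (a, x) :: π'
  lt : ∃ y π', π = π' ++ [(b, y)]

theorem Seg.append {lo mid hi a b c d : ℕ} {π1 π2 : List (ℕ × ℕ)} (h1 : Seg lo mid a b π1)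
    (h2 : Seg mid hi c d π2) (hm1 : lo ≤ mid) (hm2 : mid ≤ hi) (hbc : b ≤ c + 1 ∧ c ≤ b + 1) :
    Seg lo hi a d (π1 ++ π2) := by
  refine ⟨?_, ?_, ?_, ?_, ?_⟩
  · rw [List.nodup_append]
    refine ⟨h1.nd, h2.nd, ?_⟩
    intro x hx y hy hxy
    subst hxy
    have e1 := (h1.mem _).mp hx
    have e2 := (h2.mem _).mp hy
    omega
  · intro x
    rw [List.mem_append, h1.mem, h2.mem]
    omega
  · rw [List.isChain_append]
    refine ⟨h1.ch, h2.ch, ?_⟩
    intro x hx y hy
    obtain ⟨v, π', hv⟩ := h1.lt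
    obtain ⟨w, π'', hw⟩ := h2.hd
    rw [hv] at hx
    rw [hw] at hy
    simp only [List.getLast?_append, List.getLast?_singleton, Option.some_or, Option.mem_def,
      Option.some.injEq] at hx
    simp only [List.head?_cons, Option.mem_def, Option.some.injEq] at hy
    subst hx hy
    exact hbc
  · obtain ⟨x, π', h⟩ := h1.hd
    exact ⟨x, π' ++ π2, by rw [h]; rfl⟩
  · obtain ⟨x, π', h⟩ := h2.lt
    exact ⟨x, π1 ++ π', by rw [h, List.append_assoc]⟩

theorem Seg.single (a : ℕ) : Seg a (a + 1) a a [(a, 0), (a, 1)] := by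
  refine ⟨?_, ?_, ?_, ⟨0, _, rfl⟩, ⟨1, [(a, 0)], rfl⟩⟩
  · simp
  · rintro ⟨x, y⟩
    simp only [List.mem_cons, Prod.mk.injEq, List.not_mem_nil, or_false]
    omega
  · simp [cellR]

theorem Seg.wrap {lo hi lo' hi' a x : ℕ} {π : List (ℕ × ℕ)} (h : Seg lo hi a a π)
    (hx : ¬ (lo ≤ x ∧ x < hi)) (hint : ∀ y, (lo' ≤ y ∧ y < hi') ↔ (y = x ∨ (lo ≤ y ∧ y < hi)))
    (hxa : x ≤ a + 1 ∧ a ≤ x + 1) : Seg lo' hi' x x ((x, 0) :: (π ++ [(x, 1)])) := by
  refine ⟨?_, ?_, ?_, ⟨0, _, rfl⟩, ⟨1, (x, 0) :: π, rfl⟩⟩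
  · rw [List.nodup_cons, List.nodup_append]
    refine ⟨?_, h.nd, by simp, ?_⟩
    · rw [List.mem_append, h.mem]
      simp only [List.mem_singleton, Prod.mk.injEq]
      omega
    · intro y hy w hw hyw
      rw [List.mem_singleton] at hw
      subst hyw hw
      have := (h.mem _).mp hy
      simp only at this
      omega
  · rintro ⟨y, b⟩
    have := hint y
    simp only [List.mem_cons, List.mem_append, h.mem, Prod.mk.injEq, List.not_mem_nil, or_false]
    omega
  · obtain ⟨u, π', hu⟩ := h.hd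
    obtain ⟨v, π'', hv⟩ := h.lt
    have hch : (π ++ [(x, 1)]).IsChain cellR := by
      rw [List.isChain_append]
      refine ⟨h.ch, by simp, ?_⟩
      intro y hy w hw
      rw [hv] at hy
      simp only [List.getLast?_append, List.getLast?_singleton, Option.some_or, Option.mem_def,
        Option.some.injEq] at hy
      simp only [List.head?_cons, Option.mem_def, Option.some.injEq] at hw
      subst hy hw
      exact ⟨hxa.2, hxa.1⟩
    rw [List.isChain_cons]
    refine ⟨?_, hch⟩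
    intro y hy
    rw [hu] at hy
    simp only [List.cons_append, List.head?_cons, Option.mem_def, Option.some.injEq] at hy
    subst hy
    exact hxa

theorem Seg.left (a : ℕ) : ∃ π, Seg 0 (a + 1) a a π := by
  induction a with
  | zero => exact ⟨_, Seg.single 0⟩
  | succ a ih =>
    obtain ⟨π, h⟩ := ih
    exact ⟨_, h.wrap (lo' := 0) (hi' := a + 1 + 1) (x := a + 1) (by omega) (by intro y; omega)
      (by omega)⟩

theorem Seg.right (m : ℕ) : ∀ b, ∃ π, Seg b (b + m + 1) b b π := by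
  induction m with
  | zero => intro b; exact ⟨_, Seg.single b⟩
  | succ m ih =>
    intro b
    obtain ⟨π, h⟩ := ih (b + 1)
    exact ⟨_, h.wrap (lo' := b) (hi' := b + (m + 1) + 1) (x := b) (by omega) (by intro y; omega)
      (by omega)⟩

theorem Seg.mid (m : ℕ) : ∀ a, ∃ π, Seg a (a + m + 1) a (a + m) π := by
  induction m with
  | zero => intro b; exact ⟨_, Seg.single b⟩
  | succ m ih =>
    intro b
    obtain ⟨π, h⟩ := ih (b + 1)
    have h2 := (Seg.single b).append h (by omega) (by omega) (by omega)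
    refine ⟨[(b, 0), (b, 1)] ++ π, ?_⟩
    convert h2 using 1
    · omega
    · omega

theorem Seg.rev {M a b : ℕ} {π : List (ℕ × ℕ)} (h : Seg 0 M a b π) : Seg 0 M b a π.reverse := by
  refine ⟨List.nodup_reverse.mpr h.nd, ?_, ?_, ?_, ?_⟩
  · intro c; rw [List.mem_reverse, h.mem]
  · rw [List.isChain_reverse]
    exact h.ch.imp (fun c d hcd => ⟨hcd.2, hcd.1⟩)
  · obtain ⟨x, π', h⟩ := h.lt
    exact ⟨x, π'.reverse, by rw [h]; simp⟩
  · obtain ⟨x, π', h⟩ := h.hd
    exact ⟨x, π'.reverse, by rw [h]; simp⟩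

theorem cell_path_lt (M a b : ℕ) (hb : b < M) (hab : a < b) : ∃ π, Seg 0 M a b π := by
  obtain ⟨π1, h1⟩ := Seg.left a
  obtain ⟨π3, h3⟩ := Seg.right (M - 1 - b) b
  have e3 : b + (M - 1 - b) + 1 = M := by omega
  rw [e3] at h3
  by_cases hab1 : b = a + 1
  · subst hab1
    exact ⟨_, h1.append h3 (by omega) (by omega) (by omega)⟩
  · obtain ⟨π2, h2⟩ := Seg.mid (b - a - 2) (a + 1)
    have e2 : a + 1 + (b - a - 2) + 1 = b := by omega
    rw [e2] at h2
    have h12 := h1.append h2 (by omega) (by omega) (by omega)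
    exact ⟨_, h12.append h3 (by omega) (by omega) (by omega)⟩

theorem cell_path (M a b : ℕ) (ha : a < M) (hb : b < M) (hab : a ≠ b) : ∃ π, Seg 0 M a b π := by
  rcases Nat.lt_or_gt_of_ne hab with h | h
  · exact cell_path_lt M a b hb h
  · obtain ⟨π, hπ⟩ := cell_path_lt M b a ha h
    exact ⟨_, hπ.rev⟩

namespace Geo

variable {n : ℕ} (G : Geo n)

theorem aw_of_near {k : ℕ} {T : List (Fin n)} (h : ∀ u ∈ T, ∀ v ∈ T, G.near u v) :
    AW k 1 0 G.Narrow T := by
  intro p _ _ u hu v hv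
  exact h u (List.mem_of_mem_drop (List.mem_of_mem_take (List.mem_toFinset.mp hu))) v
    (List.mem_of_mem_drop (List.mem_of_mem_take (List.mem_toFinset.mp hv)))

noncomputable def blk (R : Finset (Fin n)) (c : ℕ × ℕ) : List (Fin n) :=
  (R.filter (fun v => G.g v = c.1 ∧ G.half v = c.2)).toList

theorem mem_blk {R : Finset (Fin n)} {c : ℕ × ℕ} {v : Fin n} :
    v ∈ G.blk R c ↔ v ∈ R ∧ G.g v = c.1 ∧ G.half v = c.2 := by
  rw [blk, Finset.mem_toList, Finset.mem_filter]

theorem aw_flatMap {k : ℕ} (R : Finset (Fin n)) : ∀ π : List (ℕ × ℕ), π.IsChain cellR →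
    (∀ c ∈ π, k ≤ (G.blk R c).length + 1) → AW k 1 0 G.Narrow (π.flatMap (G.blk R)) := by
  intro π
  induction π with
  | nil => intro _ _; exact G.aw_of_near (by simp)
  | cons c π ih =>
    intro hch hlen
    cases π with
    | nil =>
      refine G.aw_of_near ?_
      intro u hu v hv
      simp only [List.flatMap_cons, List.flatMap_nil, List.append_nil, mem_blk] at hu hv
      constructor <;> omega
    | cons d π =>
      rw [List.isChain_cons_cons] at hch
      have h1 := ih hch.2 (fun c hc => hlen c (List.mem_cons_of_mem _ hc))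
      rw [List.flatMap_cons] at h1 ⊢
      have h2 : AW k 1 0 G.Narrow (G.blk R c ++ G.blk R d) := by
        refine G.aw_of_near ?_
        intro u hu v hv
        have hcd := hch.1
        simp only [cellR] at hcd
        rcases List.mem_append.mp hu with hu | hu <;> rcases List.mem_append.mp hv with hv | hv <;>
          rw [mem_blk] at hu hv <;> constructor <;> omega
      have h3 : AW k 1 (0 + (G.blk R c).length) G.Narrow (G.blk R d ++ π.flatMap (G.blk R)) :=
        h1.congr_mod (by rw [Nat.mod_one, Nat.mod_one])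
      have h4 := AW.glue h2 h3 (hlen d (by simp))
      rw [List.flatMap_cons]
      rwa [List.append_assoc] at h4

theorem srun {k : ℕ} (R : Finset (Fin n)) (hRz : G.z ∉ R)
    (hcells : ∀ a < G.M, ∀ b < 2,
      k ≤ (R.filter (fun v => G.g v = a ∧ G.half v = b)).card + 1)
    (a b : ℕ) (ha : a < G.M) (hb : b < G.M) (hab : a ≠ b) :
    ∃ S : List (Fin n), S.Nodup ∧ (∀ v, v ∈ S ↔ v ∈ R) ∧ AW k 1 0 G.Narrow S ∧
      (∃ S1 S2, S = S1 ++ S2 ∧ k ≤ S1.length + 1 ∧ ∀ v ∈ S1, G.g v = a) ∧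
      (∃ S1 S2, S.reverse = S1 ++ S2 ∧ k ≤ S1.length + 1 ∧ ∀ v ∈ S1, G.g v = b) := by
  obtain ⟨π, h⟩ := cell_path G.M a b ha hb hab
  have hlen : ∀ c ∈ π, k ≤ (G.blk R c).length + 1 := by
    intro c hc
    have := (h.mem c).mp hc
    rw [blk, Finset.length_toList]
    exact hcells c.1 this.2.1 c.2 this.2.2
  refine ⟨π.flatMap (G.blk R), ?_, ?_, G.aw_flatMap R π h.ch hlen, ?_, ?_⟩
  · rw [List.nodup_flatMap]
    refine ⟨fun c _ => Finset.nodup_toList _, ?_⟩
    refine h.nd.imp ?_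
    intro c d hcd v hv hv'
    rw [mem_blk] at hv hv'
    apply hcd
    exact Prod.ext (hv.2.1.symm.trans hv'.2.1) (hv.2.2.symm.trans hv'.2.2)
  · intro v
    rw [List.mem_flatMap]
    constructor
    · rintro ⟨c, _, hv⟩
      exact (G.mem_blk.mp hv).1
    · intro hv
      refine ⟨(G.g v, G.half v), ?_, G.mem_blk.mpr ⟨hv, rfl, rfl⟩⟩
      rw [h.mem]
      exact ⟨Nat.zero_le _, G.g_lt v (fun h => hRz (h ▸ hv)), G.half_lt v⟩
  · obtain ⟨x, π', hx⟩ := h.hd
    refine ⟨G.blk R (a, x), π'.flatMap (G.blk R), by rw [hx, List.flatMap_cons], ?_, ?_⟩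
    · exact hlen _ (by rw [hx]; simp)
    · intro v hv
      exact (G.mem_blk.mp hv).2.1
  · obtain ⟨x, π', hx⟩ := h.lt
    refine ⟨(G.blk R (b, x)).reverse, (π'.flatMap (G.blk R)).reverse, ?_, ?_, ?_⟩
    · rw [hx, List.flatMap_append, List.reverse_append]
      simp
    · rw [List.length_reverse]
      exact hlen _ (by rw [hx]; simp)
    · intro v hv
      rw [List.mem_reverse] at hv
      exact (G.mem_blk.mp hv).2.1

end Geo

end Pool.Agent.Helper74.HamSat
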