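import Pool.Agent.Helper74.HamSat.Side
import Pool.Agent.Helper74.HamSat.Run

set_option autoImplicit false
open Classical

namespace Pool.Agent.Helper74.HamSat

theorem AW.reverse_one {V : Type*} [DecidableEq V] {k : ℕ} {P : Finset V → Prop} {T : List V}
    (h : AW k 1 0 P T) : AW k 1 0 P T.reverse := by
  by_cases hk : k ≤ T.length
  · exact AW.reverse h hk (one_dvd _)
  · intro p _ hp
    rw [List.length_reverse] at hp
    omega

namespace Geo

variable {n : ℕ} {G : Geo n}

theorem spec_card_le_one {a : ℕ} (C : Finset (Fin n))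
    (hC : ∀ v ∈ C, (∃ i < G.N, G.spec i v) ∧ G.g v = a) : C.card ≤ 1 := by
  rw [Finset.card_le_one]
  intro u hu v hv
  by_contra huv
  obtain ⟨⟨i, hi, hiu⟩, hu2⟩ := hC u hu
  obtain ⟨⟨j, hj, hjv⟩, hv2⟩ := hC v hv
  exact spec_not_near hi hj hiu hjv huv ⟨by omega, by omega⟩

theorem assemble {k l s : ℕ} (hk : 0 < k) (hs : 0 < s) (hd : s ∣ n) (hw : 2 * k ≤ G.w)
    (E Y X : List (Fin n)) (e : Finset (Fin n)) (hEk : E.length = k)
    (a b : ℕ) (ha : a < G.M) (hb : b < G.M) (hab : a ≠ b)
    (hnd : (E ++ Y ++ X).Nodup) (hz : G.z ∈ E ++ Y ++ X)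
    (hsp : ∀ v ∈ Y ++ X, v = G.z ∨ ∃ i < G.N, G.spec i v)
    (h1 : ∀ S1 S2 : List (Fin n), k ≤ S1.length + 1 → (∀ v ∈ S1, G.g v = a) →
      G.z ∉ S1 ++ S2 → AW k 1 0 G.Narrow (S1 ++ S2) → (E ++ Y ++ (S1 ++ S2)).Nodup →
      AW k s 0 (· ∈ insert e (G.H0 k l s)) (E ++ Y ++ (S1 ++ S2)))
    (h2 : ∀ S1 S2 : List (Fin n), k ≤ S1.length + 1 → (∀ v ∈ S1, G.g v = b) →
      G.z ∉ S1 ++ S2 → AW k 1 0 G.Narrow (S1 ++ S2) → (E.reverse ++ X ++ (S1 ++ S2)).Nodup →
      AW k s 0 (· ∈ insert e (G.H0 k l s)) (E.reverse ++ X ++ (S1 ++ S2))) :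
    Ham n k s (insert e (G.H0 k l s)) := by
  let R : Finset (Fin n) := Finset.univ.filter (fun v => v ∉ E ++ Y ++ X)
  have hR : ∀ v, v ∈ R ↔ v ∉ E ++ Y ++ X := by
    intro v; simp only [R, Finset.mem_filter, Finset.mem_univ, true_and]
  have hRz : G.z ∉ R := by rw [hR]; exact not_not.mpr hz
  have hcells : ∀ a < G.M, ∀ b < 2,
      k ≤ (R.filter (fun v => G.g v = a ∧ G.half v = b)).card + 1 := by
    intro a ha b hb
    have hcell := G.cell a b ha hb
    let C : Finset (Fin n) := Finset.univ.filter (fun v => v ∈ Y ++ X ∧ v ≠ G.z ∧ G.g v = a)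
    have hC : C.card ≤ 1 := by
      apply spec_card_le_one (G := G) (a := a)
      intro v hv
      simp only [C, Finset.mem_filter, Finset.mem_univ, true_and] at hv
      exact ⟨(hsp v hv.1).resolve_left hv.2.1, hv.2.2⟩
    have hsub : Finset.univ.filter (fun v : Fin n => v ≠ G.z ∧ G.g v = a ∧ G.half v = b) ⊆
        R.filter (fun v => G.g v = a ∧ G.half v = b) ∪ (E.toFinset ∪ C) := by
      intro v hv
      simp only [Finset.mem_filter, Finset.mem_univ, true_and] at hv
      simp only [Finset.mem_union, Finset.mem_filter, hR, List.mem_toFinset, C, Finset.mem_univ,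
        true_and]
      by_cases hvE : v ∈ E
      · exact Or.inr (Or.inl hvE)
      by_cases hvX : v ∈ Y ++ X
      · exact Or.inr (Or.inr ⟨hvX, hv.1, hv.2.1⟩)
      · left
        refine ⟨?_, hv.2⟩
        rw [List.append_assoc, List.mem_append]
        exact fun h => h.elim hvE hvX
    have h3 := Finset.card_le_card hsub
    have h4 := Finset.card_union_le (R.filter (fun v => G.g v = a ∧ G.half v = b))
      (E.toFinset ∪ C)
    have h5 := Finset.card_union_le E.toFinset C
    have h6 := List.toFinset_card_le E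
    omega
  obtain ⟨S, hSnd, hSmem, hSn, ⟨S1, S2, hS12, hS1l, hS1g⟩, ⟨S3, S4, hS34, hS3l, hS3g⟩⟩ :=
    G.srun R hRz hcells a b ha hb hab
  have hSdis : ∀ v, v ∈ S → v ∉ E ∧ v ∉ Y ∧ v ∉ X := by
    intro v hv
    have := (hR v).mp ((hSmem v).mp hv)
    simp only [List.mem_append, not_or] at this
    exact ⟨this.1.1, this.1.2, this.2⟩
  rw [List.nodup_append] at hnd
  obtain ⟨hndEY, hndX, hdisX⟩ := hnd
  rw [List.nodup_append] at hndEY
  obtain ⟨hndE, hndY, hdisEY⟩ := hndEY
  have hndL : (E ++ Y ++ S ++ X.reverse).Nodup := by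
    rw [List.nodup_append, List.nodup_append, List.nodup_append]
    refine ⟨⟨⟨hndE, hndY, hdisEY⟩, hSnd, ?_⟩, List.nodup_reverse.mpr hndX, ?_⟩
    · intro x hx y hy hxy
      subst hxy
      have := hSdis x hy
      rcases List.mem_append.mp hx with h | h
      · exact this.1 h
      · exact this.2.1 h
    · intro x hx y hy hxy
      subst hxy
      rw [List.mem_reverse] at hy
      rcases List.mem_append.mp hx with h | h
      · exact hdisX x h x hy rfl
      · exact (hSdis x h).2.2 hy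
  have hlen : E.length + Y.length + S.length + X.length = n := by
    have h3 : (E ++ Y ++ S ++ X.reverse).toFinset = Finset.univ := by
      ext v
      simp only [List.mem_toFinset, List.mem_append, List.mem_reverse, Finset.mem_univ, iff_true,
        hSmem, hR]
      by_cases h1 : v ∈ E
      · exact Or.inl (Or.inl (Or.inl h1))
      by_cases h2 : v ∈ Y
      · exact Or.inl (Or.inl (Or.inr h2))
      by_cases h3 : v ∈ X
      · exact Or.inr h3
      · exact Or.inl (Or.inr (by simp [h1, h2, h3]))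
    have h4 := List.toFinset_card_of_nodup hndL
    rw [h3, Finset.card_univ, Fintype.card_fin] at h4
    simp only [List.length_append, List.length_reverse] at h4
    omega
  refine ham_two_sided hs hd E Y S X hEk ?_ hk hndL hlen ?_ ?_
  · rw [hS12, List.length_append]; omega
  · have hSn' := hSn
    rw [hS12] at hSn' ⊢
    refine h1 S1 S2 hS1l hS1g ?_ hSn' ?_
    · rw [← hS12]; intro h; exact hRz ((hSmem _).mp h)
    · rw [← hS12]
      exact hndL.sublist (List.sublist_append_left _ _)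
  · have hSn' := AW.reverse_one hSn
    rw [hS34] at hSn' ⊢
    refine h2 S3 S4 hS3l hS3g ?_ hSn' ?_
    · rw [← hS34, List.mem_reverse]; intro h; exact hRz ((hSmem _).mp h)
    · rw [← hS34]
      rw [List.nodup_append, List.nodup_append]
      refine ⟨⟨List.nodup_reverse.mpr hndE, hndX, ?_⟩, List.nodup_reverse.mpr hSnd, ?_⟩
      · intro x hx y hy hxy
        subst hxy
        rw [List.mem_reverse] at hx
        exact hdisX x (List.mem_append_left _ hx) x hy rfl
      · intro x hx y hy hxy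
        subst hxy
        rw [List.mem_reverse] at hy
        have := hSdis x hy
        rcases List.mem_append.mp hx with h | h
        · exact this.1 (List.mem_reverse.mp h)
        · exact this.2.2 h

theorem φ_inj {i t t' : ℕ} (hi : i < G.N) (ht : t < G.τ) (ht' : t' < G.τ)
    (h : G.φ i t = G.φ i t') : t = t' :=
  (G.φ_sep i t i t' (G.φ i t') hi ht hi ht' (by rw [h]; exact near_refl _) (near_refl _)).2

/-- choice of the connecting vertices for one side -/
theorem choose_side {k l s i : ℕ} (hl : 2 ≤ l) (hs : 1 ≤ s) (hi : i < G.N)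
    (hτ : 2 * s + 1 + k + k * (2 * s - 1) + l ≤ G.τ)
    (e : Finset (Fin n)) (hek : e.card = k) (heU : (e.filter (G.inU i)).card ≤ s) (a0 : ℕ) 
    (hk : 1 ≤ k) :
    ∃ (X Ks Fl : List (Fin n)) (x κ : Fin n), X.length + 1 = k * (2 * s - 1) ∧ Ks.length = s ∧
      Fl.length + 2 = l ∧ (∀ v ∈ X, G.spec i v) ∧ (∀ v ∈ X, ∀ u ∈ e, u ≠ G.z → ¬ G.near u v) ∧
      G.spec i x ∧ (∀ v ∈ Ks, v ∈ G.Keys s i) ∧ κ ∈ G.Keys s i ∧ (∀ v ∈ Fl, G.spec i v) ∧
      G.g κ ≠ a0 ∧ (X ++ [x] ++ Ks ++ Fl ++ [κ]).Nodup ∧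
      (∀ v ∈ X ++ [x] ++ Ks ++ Fl ++ [κ], v ∉ e) := by
  -- fillers
  let F : Finset ℕ := (Finset.Ico (2 * s + 1) G.τ).filter
    (fun t => ∀ u ∈ e, u ≠ G.z → ¬ G.near u (G.φ i t))
  have hF : k * (2 * s - 1) + l ≤ F.card := by
    have hsub : Finset.Ico (2 * s + 1) G.τ ⊆ F ∪ e.biUnion (fun u =>
        (Finset.Ico (2 * s + 1) G.τ).filter (fun t => G.near u (G.φ i t))) := by
      intro t ht
      by_cases h : ∀ u ∈ e, u ≠ G.z → ¬ G.near u (G.φ i t)
      · exact Finset.mem_union_left _ (Finset.mem_filter.mpr ⟨ht, h⟩)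
      · push Not at h
        obtain ⟨u, hu, _, hn⟩ := h
        exact Finset.mem_union_right _ (Finset.mem_biUnion.mpr ⟨u, hu,
          Finset.mem_filter.mpr ⟨ht, hn⟩⟩)
    have h1 := Finset.card_le_card hsub
    have h2 := Finset.card_union_le F (e.biUnion (fun u =>
        (Finset.Ico (2 * s + 1) G.τ).filter (fun t => G.near u (G.φ i t))))
    have h3 : (e.biUnion (fun u =>
        (Finset.Ico (2 * s + 1) G.τ).filter (fun t => G.near u (G.φ i t)))).card ≤ e.card := by
      refine Finset.card_biUnion_le.trans ?_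
      refine (Finset.sum_le_card_nsmul _ _ 1 ?_).trans (by simp)
      intro u _
      rw [Finset.card_le_one]
      intro t ht t' ht'
      obtain ⟨ht1, ht2⟩ := Finset.mem_filter.mp ht
      obtain ⟨ht1', ht2'⟩ := Finset.mem_filter.mp ht'
      exact (G.φ_sep i t i t' u hi (Finset.mem_Ico.mp ht1).2 hi (Finset.mem_Ico.mp ht1').2
        (G.near_symm ht2) (G.near_symm ht2')).2
    rw [Nat.card_Ico] at h1
    omega
  obtain ⟨m1, hm1⟩ : ∃ m1, m1 + 1 = k * (2 * s - 1) :=
    ⟨k * (2 * s - 1) - 1, Nat.sub_add_cancel (Nat.mul_pos (by omega) (by omega))⟩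
  set T := F.toList with hT
  have hTnd : T.Nodup := Finset.nodup_toList _
  have hTl : m1 + 1 + l ≤ T.length := by rw [hT, Finset.length_toList, hm1]; exact hF
  have hTmem : ∀ t ∈ T, 2 * s + 1 ≤ t ∧ t < G.τ ∧ ∀ u ∈ e, u ≠ G.z → ¬ G.near u (G.φ i t) := by
    intro t ht
    have := Finset.mem_toList.mp ht
    simp only [F, Finset.mem_filter, Finset.mem_Ico] at this
    exact ⟨this.1.1, this.1.2, this.2⟩
  -- keys
  have hKcard : (G.Keys s i).card = 2 * s + 1 := by
    rw [Keys, Finset.card_image_of_injOn, Finset.card_range]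
    intro t ht t' ht' h
    simp only [Finset.coe_range, Set.mem_Iio] at ht ht'
    exact φ_inj hi (by omega) (by omega) h
  have hKe : s + 1 ≤ (G.Keys s i \ e).card := by
    have h1 : (G.Keys s i ∩ e) ⊆ e.filter (G.inU i) := by
      intro v hv
      rw [Finset.mem_inter] at hv
      exact Finset.mem_filter.mpr ⟨hv.2, spec_inU hi (keys_spec (by omega) hv.1)⟩
    have h2 := Finset.card_le_card h1
    have h3 := Finset.card_sdiff_add_card_inter (G.Keys s i) e
    omega
  obtain ⟨κ, hκ, hκg⟩ : ∃ κ ∈ G.Keys s i \ e, G.g κ ≠ a0 := by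
    by_contra hcon
    push Not at hcon
    have : (G.Keys s i \ e).card ≤ 1 := by
      apply spec_card_le_one (G := G) (a := a0)
      intro v hv
      exact ⟨⟨i, hi, keys_spec (by omega) (Finset.mem_sdiff.mp hv).1⟩, hcon v hv⟩
    omega
  obtain ⟨K, hKsub, hKc⟩ := Finset.exists_subset_card_eq (s := (G.Keys s i \ e).erase κ) (n := s)
    (by rw [Finset.card_erase_of_mem hκ]; omega)
  -- key slots
  have hkeyslot : ∀ v ∈ G.Keys s i, ∃ t, t < 2 * s + 1 ∧ v = G.φ i t := by
    intro v hv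
    obtain ⟨t, ht, rfl⟩ := Finset.mem_image.mp hv
    exact ⟨t, Finset.mem_range.mp ht, rfl⟩
  have hKmem : ∀ v ∈ K.toList, v ∈ G.Keys s i ∧ v ∉ e ∧ v ≠ κ := by
    intro v hv
    have := hKsub (Finset.mem_toList.mp hv)
    rw [Finset.mem_erase, Finset.mem_sdiff] at this
    exact ⟨this.2.1, this.2.2, this.1⟩
  have hspecT : ∀ t ∈ T, G.spec i (G.φ i t) := fun t ht => ⟨t, (hTmem t ht).2.1, rfl⟩
  have hTe : ∀ t ∈ T, G.φ i t ∉ e := by
    intro t ht he
    exact (hTmem t ht).2.2 _ he (spec_inU hi (hspecT t ht)).1 (near_refl _)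
  have hTK : ∀ t ∈ T, ∀ v ∈ G.Keys s i, G.φ i t ≠ v := by
    intro t ht v hv h
    obtain ⟨t', ht', rfl⟩ := hkeyslot v hv
    have h1 := hTmem t ht
    have h2 := φ_inj hi h1.2.1 (by omega) h
    omega
  have hTinj : ∀ t ∈ T, ∀ t' ∈ T, G.φ i t = G.φ i t' → t = t' := fun t ht t' ht' h =>
    φ_inj hi (hTmem t ht).2.1 (hTmem t' ht').2.1 h
  have hsplit : T.take m1 ++ ([T[m1]'(by omega)] ++ (T.drop (m1 + 1)).take (l - 2)) =
      T.take (m1 + 1 + (l - 2)) := by
    rw [← List.append_assoc, List.take_append_getElem]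
    exact List.take_add.symm
  refine ⟨(T.take m1).map (G.φ i), K.toList, ((T.drop (m1 + 1)).take (l - 2)).map (G.φ i),
    G.φ i (T[m1]'(by omega)), κ, ?_, ?_, ?_, ?_, ?_, ?_, ?_, ?_, ?_, hκg, ?_, ?_⟩
  · rw [List.length_map, List.length_take]; omega
  · rw [Finset.length_toList, hKc]
  · rw [List.length_map, List.length_take, List.length_drop]; omega
  · intro v hv
    obtain ⟨t, ht, rfl⟩ := List.mem_map.mp hv
    exact hspecT t (List.mem_of_mem_take ht)
  · intro v hv u hu huz
    obtain ⟨t, ht, rfl⟩ := List.mem_map.mp hv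
    exact (hTmem t (List.mem_of_mem_take ht)).2.2 u hu huz
  · exact hspecT _ (List.getElem_mem _)
  · intro v hv; exact (hKmem v hv).1
  · exact (Finset.mem_sdiff.mp hκ).1
  · intro v hv
    obtain ⟨t, ht, rfl⟩ := List.mem_map.mp hv
    exact hspecT t (List.mem_of_mem_drop (List.mem_of_mem_take ht))
  · -- nodup
    have hperm : ((T.take m1).map (G.φ i) ++ [G.φ i (T[m1]'(by omega))] ++ K.toList ++
        ((T.drop (m1 + 1)).take (l - 2)).map (G.φ i) ++ [κ]).Perm
        (((T.take (m1 + 1 + (l - 2))).map (G.φ i)) ++ (K.toList ++ [κ])) := by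
      rw [← hsplit, List.map_append, List.map_append, List.map_singleton]
      simp only [List.append_assoc]
      refine List.Perm.append_left _ (List.Perm.append_left _ ?_)
      rw [← List.append_assoc, ← List.append_assoc]
      exact List.Perm.append_right _ List.perm_append_comm
    rw [hperm.nodup_iff, List.nodup_append]
    refine ⟨?_, ?_, ?_⟩
    · refine List.Nodup.map_on ?_ (hTnd.sublist (List.take_sublist _ _))
      intro t ht t' ht' h
      exact hTinj t (List.mem_of_mem_take ht) t' (List.mem_of_mem_take ht') h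
    · rw [List.nodup_append]
      refine ⟨Finset.nodup_toList _, by simp, ?_⟩
      intro v hv w hw hvw
      rw [List.mem_singleton] at hw
      exact (hKmem v hv).2.2 (hvw.trans hw)
    · intro v hv w hw hvw
      obtain ⟨t, ht, rfl⟩ := List.mem_map.mp hv
      refine hTK t (List.mem_of_mem_take ht) w ?_ hvw
      rcases List.mem_append.mp hw with h | h
      · exact (hKmem w h).1
      · rw [List.mem_singleton] at h
        rw [h]
        exact (Finset.mem_sdiff.mp hκ).1
  · intro v hv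
    simp only [List.mem_append, List.mem_singleton] at hv
    rcases hv with (((h | h) | h) | h) | h
    · obtain ⟨t, ht, rfl⟩ := List.mem_map.mp h
      exact hTe t (List.mem_of_mem_take ht)
    · rw [h]; exact hTe _ (List.getElem_mem _)
    · exact (hKmem v h).2.1
    · obtain ⟨t, ht, rfl⟩ := List.mem_map.mp h
      exact hTe t (List.mem_of_mem_drop (List.mem_of_mem_take ht))
    · rw [h]; exact (Finset.mem_sdiff.mp hκ).2

end Geo

end Pool.Agent.Helper74.HamSat
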