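import Mathlib

set_option autoImplicit false
open Classical

namespace Pool.Agent.Helper74.HamSat

/-- `c` lists the vertices of `Fin n` once around a circle. -/
structure Circ (n : ℕ) (c : ℕ → Fin n) : Prop where
  per : ∀ t, c (t + n) = c t
  inj : ∀ t < n, ∀ t' < n, c t = c t' → t = t'

/-- The `i`-th window of `k` consecutive entries, windows starting at multiples of `s`. -/
noncomputable def W {n : ℕ} (c : ℕ → Fin n) (k s i : ℕ) : Finset (Fin n) :=
  (Finset.range k).image (fun j => c (i * s + j))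

/-- `H` contains a Hamiltonian cycle with windows of size `k` and step `s`. -/
def Ham (n k s : ℕ) (H : Finset (Finset (Fin n))) : Prop :=
  ∃ c : ℕ → Fin n, Circ n c ∧ ∀ i : ℕ, i < n / s → W c k s i ∈ H

/-- The formulation used in the frozen statement. -/
def HamF (n k s : ℕ) (H : Finset (Finset (Fin n))) : Prop :=
  ∃ σ : Equiv.Perm (Fin n), ∀ i : ℕ, i < n / s →
    Finset.univ.filter (fun v : Fin n => ∃ j, j < k ∧ ((σ v : Fin n) : ℕ) = (i * s + j) % n) ∈ H

theorem Circ.mod {n : ℕ} {c : ℕ → Fin n} (hc : Circ n c) (t : ℕ) : c (t % n) = c t := by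
  have key : ∀ m t, c (t + m * n) = c t := by
    intro m
    induction m with
    | zero => intro t; simp
    | succ m ih => intro t; rw [Nat.succ_mul, ← Nat.add_assoc, hc.per, ih]
  conv_rhs => rw [← Nat.mod_add_div t n, Nat.mul_comm]
  exact (key _ _).symm

theorem Circ.surj {n : ℕ} {c : ℕ → Fin n} (hc : Circ n c) (v : Fin n) : ∃ t < n, c t = v := by
  have hinj : Function.Injective (fun t : Fin n => c t) := by
    intro a b hab
    exact Fin.ext (hc.inj a a.2 b b.2 hab)
  obtain ⟨t, ht⟩ := (Finite.injective_iff_surjective.mp hinj) v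
  exact ⟨t, t.2, ht⟩

theorem Circ.eq_iff {n : ℕ} {c : ℕ → Fin n} (hc : Circ n c) (t t' : ℕ) :
    c t = c t' ↔ t % n = t' % n := by
  rcases Nat.eq_zero_or_pos n with h0 | hn
  · subst h0
    exact (c 0).elim0
  constructor
  · intro h
    rw [← hc.mod t, ← hc.mod t'] at h
    exact hc.inj _ (Nat.mod_lt _ hn) _ (Nat.mod_lt _ hn) h
  · intro h
    rw [← hc.mod t, ← hc.mod t', h]

theorem ham_iff {n k s : ℕ} (hn : 0 < n) (H : Finset (Finset (Fin n))) :
    HamF n k s H ↔ Ham n k s H := by
  constructor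
  · rintro ⟨σ, h⟩
    refine ⟨fun t => σ.symm ⟨t % n, Nat.mod_lt _ hn⟩, ⟨?_, ?_⟩, ?_⟩
    · intro t
      simp
    · intro t ht t' ht' h
      have := σ.symm.injective h
      simpa [Nat.mod_eq_of_lt ht, Nat.mod_eq_of_lt ht'] using this
    · intro i hi
      convert h i hi using 1
      ext v
      simp only [W, Finset.mem_image, Finset.mem_range, Finset.mem_filter, Finset.mem_univ,
        true_and]
      constructor
      · rintro ⟨j, hj, rfl⟩
        exact ⟨j, hj, by simp⟩
      · rintro ⟨j, hj, hv⟩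
        refine ⟨j, hj, ?_⟩
        rw [Equiv.symm_apply_eq]
        exact Fin.ext hv.symm
  · rintro ⟨c, hc, h⟩
    have hinj : Function.Injective (fun t : Fin n => c t) := by
      intro a b hab
      exact Fin.ext (hc.inj a a.2 b b.2 hab)
    have hbij : Function.Bijective (fun t : Fin n => c t) :=
      ⟨hinj, Finite.injective_iff_surjective.mp hinj⟩
    refine ⟨(Equiv.ofBijective _ hbij).symm, ?_⟩
    intro i hi
    convert h i hi using 1
    ext v
    simp only [W, Finset.mem_image, Finset.mem_range, Finset.mem_filter, Finset.mem_univ,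
        true_and]
    constructor
    · rintro ⟨j, hj, hv⟩
      refine ⟨j, hj, ?_⟩
      have h1 : (Equiv.ofBijective _ hbij) ((Equiv.ofBijective _ hbij).symm v) = v :=
        Equiv.apply_symm_apply _ _
      rw [← hc.mod, ← hv]
      exact h1
    · rintro ⟨j, hj, rfl⟩
      refine ⟨j, hj, ?_⟩
      have h1 : (Equiv.ofBijective _ hbij).symm (c (i * s + j)) = ⟨(i * s + j) % n, Nat.mod_lt _ hn⟩ := by
        rw [Equiv.symm_apply_eq]
        exact (hc.mod _).symm
      rw [h1]


/-- Saturated families. -/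
def Sat (n k s : ℕ) (H : Finset (Finset (Fin n))) : Prop :=
  (∀ e ∈ H, e.card = k) ∧ ¬ Ham n k s H ∧
    ∀ e : Finset (Fin n), e.card = k → e ∉ H → Ham n k s (insert e H)

theorem Ham.mono {n k s : ℕ} {H H' : Finset (Finset (Fin n))} (h : Ham n k s H) (hs : H ⊆ H') :
    Ham n k s H' := by
  obtain ⟨c, hc, h⟩ := h
  exact ⟨c, hc, fun i hi => hs (h i hi)⟩

/-- Extending a non-Hamiltonian family to a saturated one. -/
theorem exists_sat {n k s : ℕ} (H0 Bad : Finset (Finset (Fin n)))
    (hcard : ∀ e ∈ H0, e.card = k) (hH0 : ¬ Ham n k s H0)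
    (hgood : ∀ e : Finset (Fin n), e.card = k → e ∉ Bad → e ∉ H0 → Ham n k s (insert e H0)) :
    ∃ H, Sat n k s H ∧ H.card ≤ H0.card + Bad.card := by
  let P : Finset (Finset (Finset (Fin n))) :=
    Finset.univ.filter (fun H => H0 ⊆ H ∧ (∀ e ∈ H, e.card = k) ∧ ¬ Ham n k s H)
  have hP : P.Nonempty := ⟨H0, by simp [P, hH0]; exact hcard⟩
  obtain ⟨H, hHP, hmax⟩ := Finset.exists_max_image P Finset.card hP
  simp only [P, Finset.mem_filter, Finset.mem_univ, true_and] at hHP
  obtain ⟨h1, h2, h3⟩ := hHP
  refine ⟨H, ⟨h2, h3, ?_⟩, ?_⟩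
  · intro e he heH
    by_contra hcon
    have : insert e H ∈ P := by
      simp only [P, Finset.mem_filter, Finset.mem_univ, true_and]
      refine ⟨h1.trans (Finset.subset_insert _ _), ?_, hcon⟩
      intro f hf
      rcases Finset.mem_insert.mp hf with rfl | hf
      · exact he
      · exact h2 f hf
    have := hmax _ this
    rw [Finset.card_insert_of_notMem heH] at this
    omega
  · have hsub : H ⊆ H0 ∪ Bad := by
      intro e he
      by_contra hcon
      simp only [Finset.mem_union, not_or] at hcon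
      apply h3
      refine (hgood e (h2 e he) hcon.2 hcon.1).mono ?_
      intro f hf
      rcases Finset.mem_insert.mp hf with rfl | hf
      · exact he
      · exact h1 hf
    exact (Finset.card_le_card hsub).trans (Finset.card_union_le _ _)

theorem W_card {n : ℕ} {c : ℕ → Fin n} (hc : Circ n c) {k : ℕ} (hk : k ≤ n) (s i : ℕ) :
    (W c k s i).card = k := by
  have : Set.InjOn (fun j => c (i * s + j)) (Finset.range k : Set ℕ) := by
    intro a ha b hb hab
    simp only [Finset.coe_range, Set.mem_Iio] at ha hb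
    have h1 := (hc.eq_iff _ _).mp hab
    have h2 : a % n = b % n := by
      have : (i * s + a) ≡ (i * s + b) [MOD n] := h1
      exact Nat.ModEq.add_left_cancel' _ this
    rwa [Nat.mod_eq_of_lt (by omega), Nat.mod_eq_of_lt (by omega)] at h2
  rw [W, Finset.card_image_of_injOn this, Finset.card_range]

/-- In a saturated family every `k`-set meets some edge in at least `l` vertices. -/
theorem Sat.meets {n k s l : ℕ} {H : Finset (Finset (Fin n))} (hH : Sat n k s H)
    (hkl : k = l + s) (hs : 0 < s) (hn : k + s ≤ n) (hd : s ∣ n)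
    (e : Finset (Fin n)) (he : e.card = k) : ∃ f ∈ H, l ≤ (e ∩ f).card := by
  by_cases heH : e ∈ H
  · exact ⟨e, heH, by rw [Finset.inter_self, he]; omega⟩
  obtain ⟨c, hc, hw⟩ := hH.2.2 e he heH
  have hex : ∃ i < n / s, W c k s i = e := by
    by_contra hcon
    push Not at hcon
    apply hH.2.1
    refine ⟨c, hc, fun i hi => ?_⟩
    exact (Finset.mem_insert.mp (hw i hi)).resolve_left (hcon i hi)
  obtain ⟨i, hi, hie⟩ := hex
  have hnext : W c k s (i + 1) ∈ insert e H := by
    by_cases h : i + 1 < n / s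
    · exact hw _ h
    · have h1 : i + 1 = n / s := by omega
      have h2 : (i + 1) * s = n := by rw [h1]; exact Nat.div_mul_cancel hd
      have h3 : W c k s (i + 1) = W c k s 0 := by
        simp only [W, h2, Nat.zero_mul, Nat.zero_add]
        congr 1
        funext j
        rw [Nat.add_comm, hc.per]
      rw [h3]
      exact hw 0 (Nat.div_pos (by omega) hs)
  have hne : W c k s (i + 1) ≠ e := by
    rw [← hie]
    intro heq
    have h1 : c (i * s + 0) ∈ W c k s i :=
      Finset.mem_image.mpr ⟨0, Finset.mem_range.mpr (by omega), rfl⟩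
    rw [← heq] at h1
    obtain ⟨j, hj, hj2⟩ := Finset.mem_image.mp h1
    simp only [Finset.mem_range] at hj
    have h2 := (hc.eq_iff _ _).mp hj2
    have h3 : (i * s + (s + j)) ≡ (i * s + 0) [MOD n] := by
      have : (i + 1) * s + j = i * s + (s + j) := by ring
      rw [this] at h2
      exact h2
    have h4 : (s + j) % n = 0 % n := Nat.ModEq.add_left_cancel' _ h3
    rw [Nat.zero_mod, Nat.mod_eq_of_lt (by omega)] at h4
    omega
  have hf : W c k s (i + 1) ∈ H := (Finset.mem_insert.mp hnext).resolve_left hne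
  refine ⟨_, hf, ?_⟩
  rw [← hie]
  have hinj : Set.InjOn (fun j => c (i * s + (s + j))) (Finset.range l : Set ℕ) := by
    intro a ha b hb hab
    simp only [Finset.coe_range, Set.mem_Iio] at ha hb
    have h1 := (hc.eq_iff _ _).mp hab
    have h2 : (s + a) % n = (s + b) % n := Nat.ModEq.add_left_cancel' _ h1
    rw [Nat.mod_eq_of_lt (by omega), Nat.mod_eq_of_lt (by omega)] at h2
    omega
  have hsub : (Finset.range l).image (fun j => c (i * s + (s + j))) ⊆
      W c k s i ∩ W c k s (i + 1) := by
    intro v hv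
    obtain ⟨j, hj, rfl⟩ := Finset.mem_image.mp hv
    simp only [Finset.mem_range] at hj
    rw [Finset.mem_inter]
    constructor
    · exact Finset.mem_image.mpr ⟨s + j, Finset.mem_range.mpr (by omega), rfl⟩
    · refine Finset.mem_image.mpr ⟨j, Finset.mem_range.mpr (by omega), ?_⟩
      congr 1
      ring
  calc l = ((Finset.range l).image (fun j => c (i * s + (s + j)))).card := by
        rw [Finset.card_image_of_injOn hinj, Finset.card_range]
    _ ≤ _ := Finset.card_le_card hsub

theorem Sat.lower {n k s l : ℕ} {H : Finset (Finset (Fin n))} (hH : Sat n k s H)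
    (hkl : k = l + s) (hs : 0 < s) (hn : k + s ≤ n) (hd : s ∣ n) :
    n.choose k ≤ H.card * (k.choose l * n ^ s) := by
  have hsub : Finset.powersetCard k (Finset.univ : Finset (Fin n)) ⊆
      H.biUnion (fun f => (Finset.powersetCard l f).biUnion (fun g =>
        (Finset.powersetCard s (Finset.univ : Finset (Fin n))).image (fun r => g ∪ r))) := by
    intro e he
    have hek : e.card = k := (Finset.mem_powersetCard.mp he).2
    obtain ⟨f, hf, hl⟩ := hH.meets hkl hs hn hd e hek
    obtain ⟨g, hg, hgl⟩ := Finset.exists_subset_card_eq hl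
    rw [Finset.mem_biUnion]
    refine ⟨f, hf, ?_⟩
    rw [Finset.mem_biUnion]
    refine ⟨g, Finset.mem_powersetCard.mpr ⟨hg.trans Finset.inter_subset_right, hgl⟩, ?_⟩
    refine Finset.mem_image.mpr ⟨e \ g, ?_, ?_⟩
    · rw [Finset.mem_powersetCard]
      refine ⟨Finset.subset_univ _, ?_⟩
      rw [Finset.card_sdiff_of_subset (hg.trans Finset.inter_subset_left), hek, hgl]
      omega
    · exact Finset.union_sdiff_of_subset (hg.trans Finset.inter_subset_left)
  have h1 := Finset.card_le_card hsub
  rw [Finset.card_powersetCard, Finset.card_univ, Fintype.card_fin] at h1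
  refine h1.trans ?_
  rw [← smul_eq_mul]
  refine Finset.card_biUnion_le.trans ?_
  refine Finset.sum_le_card_nsmul _ _ _ ?_
  intro f hf
  refine Finset.card_biUnion_le.trans ?_
  have : (Finset.powersetCard l f).card = k.choose l := by
    rw [Finset.card_powersetCard, hH.1 f hf]
  rw [← this, ← smul_eq_mul]
  refine Finset.sum_le_card_nsmul _ _ _ ?_
  intro g hg
  refine Finset.card_image_le.trans ?_
  rw [Finset.card_powersetCard, Finset.card_univ, Fintype.card_fin]
  exact Nat.choose_le_pow _ _

/-- The statement to be proved for one pair `(k, l)`. -/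
def Goal (k l : ℕ) : Prop :=
  ∃ c C : ℝ, 0 < c ∧ 0 < C ∧ ∃ N : ℕ, ∀ n : ℕ, N ≤ n → (k - l) ∣ n →
      (∃ H : Finset (Finset (Fin n)),
          ((∀ e ∈ H, e.card = k) ∧ (¬ HamF n k (k - l) H) ∧
           (∀ e : Finset (Fin n), e.card = k → e ∉ H → HamF n k (k - l) (insert e H))) ∧
          (H.card : ℝ) ≤ C * (n : ℝ) ^ l) ∧
      (∀ H : Finset (Finset (Fin n)),
          ((∀ e ∈ H, e.card = k) ∧ (¬ HamF n k (k - l) H) ∧
           (∀ e : Finset (Fin n), e.card = k → e ∉ H → HamF n k (k - l) (insert e H))) →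
          c * (n : ℝ) ^ l ≤ (H.card : ℝ))

/-- Reduction: it suffices to have a sparse non-Hamiltonian family to which almost every edge can be
added with a Hamiltonian cycle arising. -/
theorem goal_of_construction {k l s : ℕ} (hl : 1 ≤ l) (hs : 1 ≤ s) (hkl : k = l + s)
    (C0 N0 : ℕ)
    (hcon : ∀ n, N0 ≤ n → s ∣ n → ∃ H0 Bad : Finset (Finset (Fin n)),
      (∀ e ∈ H0, e.card = k) ∧ ¬ Ham n k s H0 ∧
      (∀ e : Finset (Fin n), e.card = k → e ∉ Bad → e ∉ H0 → Ham n k s (insert e H0)) ∧
      H0.card + Bad.card ≤ C0 * n ^ l) : Goal k l := by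
  have hkls : k - l = s := by omega
  have hsat : ∀ n, 0 < n → ∀ H : Finset (Finset (Fin n)), 
      ((∀ e ∈ H, e.card = k) ∧ (¬ HamF n k (k - l) H) ∧
           (∀ e : Finset (Fin n), e.card = k → e ∉ H → HamF n k (k - l) (insert e H))) ↔
      Sat n k s H := by
    intro n hn H
    rw [hkls]
    simp only [ham_iff hn, Sat]
  refine ⟨1 / (2 ^ k * k.factorial * k.choose l), C0 + 1, ?_, by positivity,
    N0 + 2 * k + 1, ?_⟩
  · have : 0 < k.choose l := Nat.choose_pos (by omega)
    have : (0:ℝ) < k.choose l := by exact_mod_cast this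
    positivity
  intro n hn hd
  rw [hkls] at hd
  have hn0 : 0 < n := by omega
  constructor
  · obtain ⟨H0, Bad, h1, h2, h3, h4⟩ := hcon n (by omega) hd
    obtain ⟨H, hH, hc⟩ := exists_sat H0 Bad h1 h2 h3
    refine ⟨H, (hsat n hn0 H).mpr hH, ?_⟩
    have : H.card ≤ C0 * n ^ l := hc.trans h4
    have h5 : (H.card : ℝ) ≤ C0 * (n:ℝ) ^ l := by exact_mod_cast this
    have h6 : (0:ℝ) ≤ (n:ℝ) ^ l := by positivity
    nlinarith
  · intro H hH
    rw [hsat n hn0 H] at hH
    have h1 := hH.lower hkl (by omega) (by omega) hd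
    have h2 : (n + 1 - k) ^ k ≤ k.factorial * n.choose k := by
      have := Nat.pow_le_choose (α := ℝ) k n
      rw [div_le_iff₀ (by positivity)] at this
      have h : (((n + 1 - k) ^ k : ℕ) : ℝ) ≤ ((k.factorial * n.choose k : ℕ) : ℝ) := by
        push_cast
        linarith
      exact_mod_cast h
    have h3 : n ^ k ≤ 2 ^ k * (n + 1 - k) ^ k := by
      rw [← mul_pow]
      exact Nat.pow_le_pow_left (by omega) _
    have h4 : n ^ k ≤ 2 ^ k * (k.factorial * (H.card * (k.choose l * n ^ s))) := by
      calc n ^ k ≤ 2 ^ k * (n + 1 - k) ^ k := h3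
        _ ≤ 2 ^ k * (k.factorial * n.choose k) := Nat.mul_le_mul_left _ h2
        _ ≤ _ := by gcongr
    have h5 : n ^ l ≤ 2 ^ k * (k.factorial * (H.card * k.choose l)) := by
      have h6 : n ^ l * n ^ s ≤ 2 ^ k * (k.factorial * (H.card * k.choose l)) * n ^ s := by
        rw [← pow_add, ← hkl]
        calc n ^ k ≤ _ := h4
          _ = _ := by ring
      exact Nat.le_of_mul_le_mul_right h6 (by positivity)
    have h6 : (n:ℝ) ^ l ≤ 2 ^ k * (k.factorial * (H.card * k.choose l)) := by exact_mod_cast h5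
    have h7 : 0 < k.choose l := Nat.choose_pos (by omega)
    have h8 : (0:ℝ) < k.choose l := by exact_mod_cast h7
    rw [div_mul_eq_mul_div, one_mul, div_le_iff₀ (by positivity)]
    calc (n:ℝ) ^ l ≤ _ := h6
      _ = _ := by ring

end Pool.Agent.Helper74.HamSat
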