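import Pool.Agent.Helper74.HamSat.Basic

set_option autoImplicit false
open Classical

namespace Pool.Agent.Helper74.HamSat

/-- All windows of length `k` of the list `T` starting at positions `p` with `s ∣ p + r`
satisfy `P`. -/
def AW {V : Type*} [DecidableEq V] (k s r : ℕ) (P : Finset V → Prop) (T : List V) : Prop :=
  ∀ p, s ∣ p + r → p + k ≤ T.length → P ((T.drop p).take k).toFinset

section
variable {V : Type*} [DecidableEq V] {k s r : ℕ} {P : Finset V → Prop}

theorem AW.glue {X Y Z : List V} (h1 : AW k s r P (X ++ Y))
    (h2 : AW k s (r + X.length) P (Y ++ Z)) (hk : k ≤ Y.length + 1) :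
    AW k s r P (X ++ Y ++ Z) := by
  intro p hp hpl
  by_cases h : p + k ≤ (X ++ Y).length
  · have := h1 p hp h
    rwa [List.drop_append_of_le_length (by omega), List.take_append_of_le_length
      (by rw [List.length_drop]; omega)]
  · have hlen : (X ++ Y).length = X.length + Y.length := List.length_append
    have hp2 : X.length ≤ p := by omega
    have h3 := h2 (p - X.length) (by
      have : p - X.length + (r + X.length) = p + r := by omega
      rwa [this]) (by
        simp only [List.length_append] at hpl ⊢
        omega)
    have h4 : (X ++ Y ++ Z).drop p = (Y ++ Z).drop (p - X.length) := by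
      rw [List.append_assoc, List.drop_append]
      have : List.drop p X = [] := List.drop_eq_nil_of_le hp2
      rw [this, List.nil_append]
    rwa [h4]

theorem AW.congr_mod {r' : ℕ} {T : List V} (h : AW k s r P T) (hr : r % s = r' % s) :
    AW k s r' P T := by
  intro p hp hpl
  apply h p _ hpl
  have h1 : (p + r) ≡ (p + r') [MOD s] := Nat.ModEq.add_left _ hr
  exact (Nat.modEq_zero_iff_dvd.mp (h1.trans (Nat.modEq_zero_iff_dvd.mpr hp)))

theorem AW.imp {Q : Finset V → Prop} {T : List V} (h : AW k s r P T) (hPQ : ∀ f, P f → Q f) :
    AW k s r Q T := fun p hp hpl => hPQ _ (h p hp hpl)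

theorem AW.reverse {T : List V} (h : AW k s 0 P T) (hk : k ≤ T.length)
    (hr : s ∣ T.length - k + r) : AW k s r P T.reverse := by
  intro p hp hpl
  rw [List.length_reverse] at hpl
  have h1 : s ∣ (T.length - p - k) + 0 := by
    have h2 : T.length - k + r = (T.length - p - k) + (p + r) := by omega
    rw [h2] at hr
    exact (Nat.dvd_add_iff_left hp).mpr hr
  have h3 := h (T.length - p - k) h1 (by omega)
  have h4 : (T.reverse.drop p).take k = ((T.drop (T.length - p - k)).take k).reverse := by
    rw [List.drop_reverse, List.take_reverse, List.length_take, List.drop_take]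
    congr 2
    · omega
    · congr 1
      omega
  rw [h4, List.toFinset_reverse]
  exact h3

end

theorem ham_of_list {n k s : ℕ} (hs : 0 < s) (hk : k ≤ n) (L : List (Fin n)) (hnd : L.Nodup)
    (hlen : L.length = n) {H : Finset (Finset (Fin n))} (hn : 0 < n)
    (h : AW k s 0 (· ∈ H) (L ++ L.take k)) : Ham n k s H := by
  have hlt : ∀ t, t % n < L.length := fun t => by rw [hlen]; exact Nat.mod_lt _ hn
  refine ⟨fun t => L[t % n]'(hlt t), ⟨?_, ?_⟩, ?_⟩
  · intro t
    simp
  · intro t ht t' ht' heq
    have := (List.Nodup.getElem_inj_iff hnd).mp heq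
    rwa [Nat.mod_eq_of_lt ht, Nat.mod_eq_of_lt ht'] at this
  · intro i hi
    have hi2 : (i + 1) * s ≤ n := by
      calc (i + 1) * s ≤ (n / s) * s := Nat.mul_le_mul_right _ hi
        _ ≤ n := Nat.div_mul_le_self _ _
    have hi3 : i * s < n := by
      have : (i + 1) * s = i * s + s := by ring
      omega
    have hlen2 : (L ++ L.take k).length = n + k := by
      rw [List.length_append, List.length_take, hlen]; omega
    have h1 := h (i * s) (by simp) (by omega)
    convert h1 using 1
    ext v
    simp only [W, Finset.mem_image, Finset.mem_range, List.mem_toFinset]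
    have hget : ∀ j (hj : j < k), (L ++ L.take k)[i * s + j]'(by omega) =
        L[(i * s + j) % n]'(hlt _) := by
      intro j hj
      by_cases hc : i * s + j < n
      · rw [List.getElem_append_left (by omega)]
        congr 1
        rw [Nat.mod_eq_of_lt hc]
      · rw [List.getElem_append_right (by omega), List.getElem_take]
        congr 1
        rw [hlen]
        have : i * s + j = (i * s + j - n) + n := by omega
        conv_rhs => rw [this, Nat.add_mod_right, Nat.mod_eq_of_lt (by omega)]
    constructor
    · rintro ⟨j, hj, rfl⟩
      rw [← hget j hj]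
      rw [List.mem_iff_getElem]
      refine ⟨j, by rw [List.length_take, List.length_drop]; omega, ?_⟩
      rw [List.getElem_take, List.getElem_drop]
    · intro hv
      rw [List.mem_iff_getElem] at hv
      obtain ⟨j, hj, rfl⟩ := hv
      rw [List.length_take, List.length_drop] at hj
      refine ⟨j, by omega, ?_⟩
      rw [← hget j (by omega), List.getElem_take, List.getElem_drop]

/-- Two-sided gluing. -/
theorem ham_two_sided {n k s : ℕ} (hs : 0 < s) (hd : s ∣ n) (E Y S X : List (Fin n))
    (hE : E.length = k) (hS : k ≤ S.length + 1) (hk : 0 < k)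
    (hnd : (E ++ Y ++ S ++ X.reverse).Nodup)
    (hlen : E.length + Y.length + S.length + X.length = n)
    {H : Finset (Finset (Fin n))}
    (h1 : AW k s 0 (· ∈ H) (E ++ Y ++ S))
    (h2 : AW k s 0 (· ∈ H) (E.reverse ++ X ++ S.reverse)) : Ham n k s H := by
  refine ham_of_list hs (by omega) (E ++ Y ++ S ++ X.reverse) hnd (by simp; omega) (by omega) ?_
  have ht : (E ++ Y ++ S ++ X.reverse).take k = E := by
    rw [List.append_assoc, List.append_assoc, List.take_append_of_le_length (by omega),
      List.take_of_length_le (by omega)]
  rw [ht]
  have h3 : AW k s (E ++ Y).length (· ∈ H) (S ++ (X.reverse ++ E)) := by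
    have := AW.reverse (r := (E ++ Y).length) h2 (by simp; omega) (by
      simp only [List.length_append, List.length_reverse]
      have : E.length + X.length + S.length - k + (E.length + Y.length) = n := by omega
      rwa [this])
    simpa using this
  have h4 := AW.glue (X := E ++ Y) (Y := S) (Z := X.reverse ++ E) h1
    (by rw [Nat.zero_add]; exact h3) hS
  simpa using h4

end Pool.Agent.Helper74.HamSat
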