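import Pool.Agent.Helper74.HamSat.Zone

set_option autoImplicit false
open Classical

namespace Pool.Agent.Helper74.HamSat

theorem exists_geo (k τ n : ℕ) (hk : 0 < k) (hτ : 0 < τ) (hn : 3 * τ * (4 * k) + 1 ≤ n) :
    ∃ G : Geo n, G.w = 2 * k ∧ G.τ = τ ∧ G.B = 2 * (3 * τ * (4 * k)) := by
  set D := 4 * k with hD
  have hD0 : 0 < D := by omega
  set ρ := 3 * τ with hρ
  have hρ0 : 0 < ρ := by omega
  set M := (n - 1) / D with hM
  set N := M / ρ with hN
  have hn0 : 0 < n := by omega
  have hMD : M * D ≤ n - 1 := Nat.div_mul_le_self _ _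
  have hMD2 : n - 1 < (M + 1) * D := by
    have := Nat.lt_div_mul_add (a := n - 1) (b := D) hD0
    rw [Nat.add_mul, Nat.one_mul]
    exact this
  have hNρ : N * ρ ≤ M := Nat.div_mul_le_self _ _
  have hNρ2 : M < (N + 1) * ρ := by
    have := Nat.lt_div_mul_add (a := M) (b := ρ) hρ0
    rw [Nat.add_mul, Nat.one_mul]
    exact this
  have hρM : ρ ≤ M := by
    rw [hM, Nat.le_div_iff_mul_le hD0]
    omega
  have hN1 : 1 ≤ N := by
    rw [hN, Nat.le_div_iff_mul_le hρ0]
    omega
  have hM1 : 1 ≤ M := by omega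
  have hφ : ∀ i t, i < N → t < τ → (i * ρ + 3 * t) + 1 ≤ M ∧ (i * ρ + 3 * t) * D + D ≤ n - 1 := by
    intro i t hi ht
    have h1 : (i + 1) * ρ ≤ N * ρ := Nat.mul_le_mul_right _ hi
    have h2 : (i + 1) * ρ = i * ρ + ρ := by ring
    have h3 : (i * ρ + 3 * t) + 1 ≤ M := by omega
    refine ⟨h3, ?_⟩
    have h4 : ((i * ρ + 3 * t) + 1) * D ≤ M * D := Nat.mul_le_mul_right _ h3
    have h5 : ((i * ρ + 3 * t) + 1) * D = (i * ρ + 3 * t) * D + D := by ring
    omega
  let g : Fin n → ℕ := fun v => min ((v : ℕ) / D) (M - 1)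
  let h : Fin n → ℕ := fun v => min (g v / ρ) (N - 1)
  let φ : ℕ → ℕ → Fin n := fun i t =>
    if hh : (i * ρ + 3 * t) * D < n then ⟨(i * ρ + 3 * t) * D, hh⟩ else ⟨0, hn0⟩
  have hφval : ∀ i t, i < N → t < τ → ((φ i t : Fin n) : ℕ) = (i * ρ + 3 * t) * D := by
    intro i t hi ht
    have := (hφ i t hi ht).2
    have hlt : (i * ρ + 3 * t) * D < n := by omega
    simp only [φ, hlt, dif_pos]
  have hφg : ∀ i t, i < N → t < τ → g (φ i t) = i * ρ + 3 * t := by
    intro i t hi ht
    simp only [g, hφval i t hi ht, Nat.mul_div_cancel _ hD0]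
    have := (hφ i t hi ht).1
    omega
  have hlarge : ∀ v : Fin n, (v : ℕ) ≤ n - 1 := fun v => by have := v.2; omega
  refine ⟨{ z := ⟨n - 1, by omega⟩, g := g, h := h,
            half := fun v => if (v : ℕ) - g v * D < 2 * k then 0 else 1,
            M := M, N := N, τ := τ, B := 2 * (ρ * D), w := 2 * k, φ := φ,
            g_lt := ?_, half_lt := ?_, h_lt := ?_, h_of_g := ?_, h_near := ?_, φ_z := ?_,
            φ_h := ?_, φ_sep := ?_, cardU := ?_, cell := ?_ }, rfl, rfl, rfl⟩
  · intro v _
    simp only [g]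
    omega
  · intro v
    split_ifs <;> omega
  · intro v _
    simp only [h]
    omega
  · intro u v huv
    simp only [h, huv]
  · intro u v huv
    simp only [h]
    have h1 : g u / ρ ≤ (g v + ρ) / ρ := Nat.div_le_div_right (by omega)
    rw [Nat.add_div_right _ hρ0] at h1
    omega
  · intro i t hi ht heq
    have h1 := congrArg Fin.val heq
    rw [hφval i t hi ht] at h1
    have h2 := (hφ i t hi ht).2
    simp only at h1
    omega
  · intro i t hi ht
    simp only [h, hφg i t hi ht]
    have : (i * ρ + 3 * t) / ρ = i := by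
      rw [Nat.mul_comm, Nat.mul_add_div hρ0, Nat.div_eq_of_lt (by omega)]
      omega
    rw [this]
    omega
  · intro i t i' t' v hi ht hi' ht' h1 h2
    rw [hφg i t hi ht] at h1
    rw [hφg i' t' hi' ht'] at h2
    have e1 : i * ρ = 3 * (i * τ) := by rw [hρ]; ring
    have e2 : i' * ρ = 3 * (i' * τ) := by rw [hρ]; ring
    have h3 : i * τ + t = i' * τ + t' := by omega
    have h4 : i = i' := by
      have a1 : (i * τ + t) / τ = i := by
        rw [Nat.mul_comm, Nat.mul_add_div hτ, Nat.div_eq_of_lt ht]; omega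
      have a2 : (i' * τ + t') / τ = i' := by
        rw [Nat.mul_comm, Nat.mul_add_div hτ, Nat.div_eq_of_lt ht']; omega
      rw [← a1, ← a2, h3]
    subst h4
    exact ⟨rfl, by omega⟩
  · intro i
    have hmap : ∀ v ∈ Finset.univ.filter (fun v : Fin n => v ≠ ⟨n - 1, by omega⟩ ∧ h v = i),
        (v : ℕ) ∈ Finset.Ico (i * ρ * D) (i * ρ * D + 2 * (ρ * D)) := by
      intro v hv
      have hv2 := (Finset.mem_filter.mp hv).2.2
      simp only [h] at hv2
      rw [Finset.mem_Ico]
      have hgv : g v = min ((v : ℕ) / D) (M - 1) := rfl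
      have hi1 : i ≤ g v / ρ := by omega
      have hi2 : i ≤ N - 1 := by omega
      have hi3 : i * ρ ≤ g v := by
        rwa [Nat.le_div_iff_mul_le hρ0] at hi1
      have hi4 : i * ρ ≤ (v : ℕ) / D := by omega
      constructor
      · rwa [Nat.le_div_iff_mul_le hD0] at hi4
      · by_cases hiN : i < N - 1
        · have h1 : g v / ρ = i := by omega
          have h2 : g v < (i + 1) * ρ := by
            rw [← Nat.div_lt_iff_lt_mul hρ0]; omega
          have h3 : (i + 2) * ρ ≤ N * ρ := Nat.mul_le_mul_right _ (by omega)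
          have h4 : (i + 2) * ρ = (i + 1) * ρ + ρ := by ring
          have h5 : (v : ℕ) / D < (i + 1) * ρ := by omega
          rw [Nat.div_lt_iff_lt_mul hD0] at h5
          have h6 : (i + 1) * ρ * D = i * ρ * D + ρ * D := by ring
          omega
        · have h1 : i = N - 1 := by omega
          have h2 : (N + 1) * ρ = i * ρ + 2 * ρ := by
            have : N + 1 = i + 2 := by omega
            rw [this]; ring
          have h3 : (M + 1) * D ≤ (i * ρ + 2 * ρ) * D := Nat.mul_le_mul_right _ (by omega)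
          have h4 : (i * ρ + 2 * ρ) * D = i * ρ * D + 2 * (ρ * D) := by ring
          have := hlarge v
          omega
    have h1 := Finset.card_le_card_of_injOn (fun v : Fin n => (v : ℕ)) hmap
      (fun a _ b _ hab => Fin.ext hab)
    rw [Nat.card_Ico] at h1
    omega
  · intro a b ha hb
    have hbk : ∀ j < 2 * k, a * D + 2 * k * b + j < n - 1 ∧ (a * D + 2 * k * b + j) / D = a := by
      intro j hj
      have h1 : (a + 1) * D ≤ M * D := Nat.mul_le_mul_right _ ha
      have h2 : (a + 1) * D = a * D + D := by ring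
      have h3 : 2 * k * b ≤ 2 * k * 1 := Nat.mul_le_mul_left _ (by omega)
      refine ⟨by omega, ?_⟩
      rw [Nat.add_assoc, Nat.mul_comm a D, Nat.mul_add_div hD0, Nat.div_eq_of_lt (by omega)]
      omega
    have hinj : Set.InjOn (fun j : ℕ => if hh : a * D + 2 * k * b + j < n then
        (⟨a * D + 2 * k * b + j, hh⟩ : Fin n) else ⟨0, hn0⟩)
        (Finset.range (2 * k) : Set ℕ) := by
      intro j hj j' hj' heq
      simp only [Finset.coe_range, Set.mem_Iio] at hj hj'
      have h1 := (hbk j hj).1
      have h2 := (hbk j' hj').1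
      have h3 : a * D + 2 * k * b + j < n := by omega
      have h4 : a * D + 2 * k * b + j' < n := by omega
      simp only [h3, h4, dif_pos, Fin.mk.injEq] at heq
      omega
    have hmap : ∀ j ∈ Finset.range (2 * k), (fun j : ℕ => if hh : a * D + 2 * k * b + j < n then
        (⟨a * D + 2 * k * b + j, hh⟩ : Fin n) else ⟨0, hn0⟩) j ∈
        Finset.univ.filter (fun v : Fin n => v ≠ ⟨n - 1, by omega⟩ ∧ g v = a ∧
          (if (v : ℕ) - g v * D < 2 * k then 0 else 1) = b) := by
      intro j hj
      rw [Finset.mem_range] at hj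
      obtain ⟨h1, h2⟩ := hbk j hj
      have h3 : a * D + 2 * k * b + j < n := by omega
      have hg : g ⟨a * D + 2 * k * b + j, h3⟩ = a := by
        simp only [g, h2]; omega
      simp only [h3, dif_pos, Finset.mem_filter, Finset.mem_univ, true_and, hg]
      refine ⟨?_, ?_⟩
      · intro heq
        have := congrArg Fin.val heq
        simp only at this
        omega
      · have h4 : a * D + 2 * k * b + j - a * D = 2 * k * b + j := by omega
        rw [h4]
        have hb' : b = 0 ∨ b = 1 := by omega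
        rcases hb' with rfl | rfl
        · simp [hj]
        · rw [if_neg (by omega)]
    have h1 := Finset.card_le_card_of_injOn _ hmap hinj
    rw [Finset.card_range] at h1
    exact h1

end Pool.Agent.Helper74.HamSat
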