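import Pool.Agent.Helper74.HamSat.Assemble

set_option autoImplicit false
open Classical

namespace Pool.Agent.Helper74.HamSat

namespace Geo

variable {n : ℕ} {G : Geo n}

structure AList (G : Geo n) (l : ℕ) (e : Finset (Fin n)) (r0 r1 : Fin n) (Al : List (Fin n)) :
    Prop where
  nd : Al.Nodup
  len : Al.length = l
  sub : ∀ v ∈ Al, v ∈ e
  far : ∀ u ∈ Al, ∀ v ∈ Al, u ≠ v → u ≠ G.z → v ≠ G.z → G.hfar u v
  high : ∀ v ∈ Al, v ≠ G.z → G.h r0 + 2 ≤ G.h v
  zmem : G.z ∈ e → G.z ∈ Al
  ztail : G.z ∉ Al.drop 1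
  r1mem : r1 ∈ Al
  r1z : r1 ≠ G.z
  r1min : ∀ v ∈ Al, v ≠ G.z → G.h r1 ≤ G.h v
  r1take : ∀ q, 2 ≤ q → r1 ∈ Al.take q

theorem exists_AList {l : ℕ} (hl : 2 ≤ l) {e D : Finset (Fin n)} (hD : D ⊆ e)
    (hDc : D.card = l + 1) (hDz : G.z ∉ D) (hDf : ∀ u ∈ D, ∀ v ∈ D, u ≠ v → G.hfar u v)
    (r0 : Fin n) (hmin : ∀ v ∈ e, v ≠ G.z → G.h r0 ≤ G.h v) :
    ∃ r1 Al, AList G l e r0 r1 Al := by
  let D' := D.filter (fun v => G.h r0 + 2 ≤ G.h v)
  have hD'c : l ≤ D'.card := by
    have h1 := Finset.card_filter_add_card_filter_not (s := D) (fun v => G.h r0 + 2 ≤ G.h v)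
    have h2 : (D.filter (fun v => ¬ G.h r0 + 2 ≤ G.h v)).card ≤ 1 := by
      rw [Finset.card_le_one]
      intro a ha b hb
      by_contra hab
      obtain ⟨ha1, ha2⟩ := Finset.mem_filter.mp ha
      obtain ⟨hb1, hb2⟩ := Finset.mem_filter.mp hb
      have h3 := hmin a (hD ha1) (fun h => hDz (h ▸ ha1))
      have h4 := hmin b (hD hb1) (fun h => hDz (h ▸ hb1))
      rcases hDf a ha1 b hb1 hab with h | h <;> omega
    have h3 : D'.card = (D.filter (fun v => G.h r0 + 2 ≤ G.h v)).card := rfl
    omega
  have hD'D : D' ⊆ D := Finset.filter_subset _ _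
  by_cases hz : G.z ∈ e
  · obtain ⟨A, hA, hAc⟩ := Finset.exists_subset_card_eq (s := D') (n := l - 1) (by omega)
    have hAne : A.Nonempty := Finset.card_pos.mp (by omega)
    obtain ⟨r1, hr1, hr1min⟩ := Finset.exists_min_image A G.h hAne
    have hAD : A ⊆ D := hA.trans hD'D
    have hmemz : ∀ v ∈ A, v ≠ G.z := fun v hv h => hDz (h ▸ hAD hv)
    have hmem : ∀ v, v ∈ G.z :: r1 :: (A.erase r1).toList ↔ (v = G.z ∨ v ∈ A) := by
      intro v
      simp only [List.mem_cons, Finset.mem_toList, Finset.mem_erase]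
      constructor
      · rintro (h | h | h)
        · exact Or.inl h
        · exact Or.inr (h ▸ hr1)
        · exact Or.inr h.2
      · rintro (h | h)
        · exact Or.inl h
        · by_cases h2 : v = r1
          · exact Or.inr (Or.inl h2)
          · exact Or.inr (Or.inr ⟨h2, h⟩)
    refine ⟨r1, G.z :: r1 :: (A.erase r1).toList, ?_, ?_, ?_, ?_, ?_, ?_, ?_, ?_, ?_, ?_, ?_⟩
    · rw [List.nodup_cons, List.nodup_cons]
      refine ⟨?_, ?_, Finset.nodup_toList _⟩
      · simp only [List.mem_cons, Finset.mem_toList, Finset.mem_erase, not_or]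
        exact ⟨fun h => hmemz r1 hr1 h.symm, fun h => hmemz _ h.2 rfl⟩
      · simp
    · simp only [List.length_cons, Finset.length_toList, Finset.card_erase_of_mem hr1]
      omega
    · intro v hv
      rcases (hmem v).mp hv with h | h
      · rw [h]; exact hz
      · exact hD (hAD h)
    · intro u hu v hv huv huz hvz
      exact hDf u (hAD (((hmem u).mp hu).resolve_left huz)) v
        (hAD (((hmem v).mp hv).resolve_left hvz)) huv
    · intro v hv hvz
      exact (Finset.mem_filter.mp (hA (((hmem v).mp hv).resolve_left hvz))).2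
    · intro _; simp
    · simp only [List.drop_succ_cons, List.drop_zero, List.mem_cons, Finset.mem_toList,
        Finset.mem_erase, not_or]
      exact ⟨fun h => hmemz r1 hr1 h.symm, fun h => hmemz _ h.2 rfl⟩
    · simp
    · exact hmemz r1 hr1
    · intro v hv hvz
      exact hr1min v (((hmem v).mp hv).resolve_left hvz)
    · intro q hq
      obtain ⟨m, rfl⟩ : ∃ m, q = m + 2 := ⟨q - 2, by omega⟩
      simp
  · obtain ⟨A, hA, hAc⟩ := Finset.exists_subset_card_eq (s := D') (n := l) (by omega)
    have hAne : A.Nonempty := Finset.card_pos.mp (by omega)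
    obtain ⟨r1, hr1, hr1min⟩ := Finset.exists_min_image A G.h hAne
    have hAD : A ⊆ D := hA.trans hD'D
    have hmemz : ∀ v ∈ A, v ≠ G.z := fun v hv h => hDz (h ▸ hAD hv)
    have hmem : ∀ v, v ∈ r1 :: (A.erase r1).toList ↔ v ∈ A := by
      intro v
      simp only [List.mem_cons, Finset.mem_toList, Finset.mem_erase]
      constructor
      · rintro (h | h)
        · exact h ▸ hr1
        · exact h.2
      · intro h
        by_cases h2 : v = r1
        · exact Or.inl h2
        · exact Or.inr ⟨h2, h⟩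
    refine ⟨r1, r1 :: (A.erase r1).toList, ?_, ?_, ?_, ?_, ?_, ?_, ?_, ?_, ?_, ?_, ?_⟩
    · rw [List.nodup_cons]
      exact ⟨by simp, Finset.nodup_toList _⟩
    · simp only [List.length_cons, Finset.length_toList, Finset.card_erase_of_mem hr1]
      omega
    · intro v hv
      exact hD (hAD ((hmem v).mp hv))
    · intro u hu v hv huv huz hvz
      exact hDf u (hAD ((hmem u).mp hu)) v (hAD ((hmem v).mp hv)) huv
    · intro v hv hvz
      exact (Finset.mem_filter.mp (hA ((hmem v).mp hv))).2
    · intro h; exact absurd h hz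
    · simp only [List.drop_succ_cons, List.drop_zero, Finset.mem_toList, Finset.mem_erase]
      exact fun h => hmemz _ h.2 rfl
    · simp
    · exact hmemz r1 hr1
    · intro v hv hvz
      exact hr1min v ((hmem v).mp hv)
    · intro q hq
      obtain ⟨m, rfl⟩ : ∃ m, q = m + 2 := ⟨q - 2, by omega⟩
      simp

theorem left_side {k l s : ℕ} (hkl : k = l + s) (hl : 2 ≤ l) (hs : 1 ≤ s)
    {e : Finset (Fin n)} {r0 r1 : Fin n} {Al C : List (Fin n)} (hA : AList G l e r0 r1 Al)
    (hEe : (Al ++ C).toFinset = e) (hEk : (Al ++ C).length = k)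
    {X Ks Fl S1 S2 : List (Fin n)} {x κ : Fin n}
    (hXl : X.length + 1 = k * (2 * s - 1)) (hKl : Ks.length = s) (hFl : Fl.length + 2 = l)
    (hS1 : k ≤ S1.length + 1)
    (hX : ∀ v ∈ X, G.spec (G.h r1) v) (hXfar : ∀ v ∈ X, ∀ u ∈ e, u ≠ G.z → ¬ G.near u v)
    (hx : x = G.z ∨ G.spec (G.h r1) x)
    (hτ : 2 * s + 1 ≤ G.τ)
    (hK : ∀ v ∈ Ks, v ∈ G.Keys s (G.h r1)) (hκ : κ ∈ G.Keys s (G.h r1))
    (hF : ∀ v ∈ Fl, G.spec (G.h r1) v)
    (hS1g : ∀ v ∈ S1, G.g v = G.g κ) (hSz : G.z ∉ S1 ++ S2)
    (hSn : AW k 1 0 G.Narrow (S1 ++ S2))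
    (hnd : ((Al ++ C).reverse ++ (X ++ [x] ++ Ks ++ Fl ++ [κ]) ++ (S1 ++ S2)).Nodup) :
    AW k s 0 (· ∈ insert e (G.H0 k l s))
      ((Al ++ C).reverse ++ (X ++ [x] ++ Ks ++ Fl ++ [κ]) ++ (S1 ++ S2)) := by
  have hdrop : ∀ p, s ≤ p → (Al ++ C).reverse.drop p = (Al.take (k - p)).reverse := by
    intro p hp
    rw [List.drop_reverse, hEk, List.take_append_of_le_length (by rw [hA.len]; omega)]
  have hmemd : ∀ v, v ∈ (Al ++ C).reverse.drop s → v ∈ Al := by
    intro v hv
    rw [hdrop s le_rfl, List.mem_reverse] at hv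
    exact List.mem_of_mem_take hv
  refine side_clean hkl hl hs (G.h_lt r1 hA.r1z) _ X Ks Fl S1 S2 x κ e
    (by rw [List.toFinset_reverse]; exact hEe) (by rw [List.length_reverse]; exact hEk)
    hXl hKl hFl hS1 ?_ ?_ ?_ hX ?_ hx hτ hK hκ hF hS1g hSz hSn hnd
  · intro u hu v hv huv huz hvz
    exact G.not_near_of_hfar (hA.far u (hmemd u hu) v (hmemd v hv) huv huz hvz)
  · intro v hv hvz
    exact hA.r1min v (hmemd v hv) hvz
  · intro p hsp hpk
    rw [hdrop p hsp, List.toFinset_reverse]
    have hlen : (Al.take (k - p)).toFinset.card ≤ k - p :=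
      (List.toFinset_card_le _).trans (List.length_take_le _ _)
    by_cases hq : 2 ≤ k - p
    · have hr := hA.r1take (k - p) hq
      have hsub : (Al.take (k - p)).toFinset.filter (fun v => ¬ G.inU (G.h r1) v) ⊆
          (Al.take (k - p)).toFinset.erase r1 := by
        intro v hv
        obtain ⟨hv1, hv2⟩ := Finset.mem_filter.mp hv
        refine Finset.mem_erase.mpr ⟨?_, hv1⟩
        rintro rfl
        exact hv2 ⟨hA.r1z, rfl⟩
      have h1 := Finset.card_le_card hsub
      rw [Finset.card_erase_of_mem (List.mem_toFinset.mpr hr)] at h1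
      omega
    · have h1 := Finset.card_filter_le (Al.take (k - p)).toFinset
        (fun v => ¬ G.inU (G.h r1) v)
      omega
  · intro v hv u hu huz
    refine hXfar v hv u ?_ huz
    rw [← hEe, List.mem_toFinset]
    exact List.mem_reverse.mp hu

theorem good {k l s : ℕ} (hkl : k = l + s) (hl : 2 ≤ l) (hs : 1 ≤ s) (hd : s ∣ n)
    (hw : 2 * k ≤ G.w) (hτ : 2 * s + 1 + k + k * (2 * s - 1) + l ≤ G.τ)
    (e : Finset (Fin n)) (hek : e.card = k) (he : e ∉ G.Bad k l) :
    Ham n k s (insert e (G.H0 k l s)) := by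
  have hD : ∃ D ⊆ e, D.card = l + 1 ∧ G.z ∉ D ∧ ∀ u ∈ D, ∀ v ∈ D, u ≠ v → G.hfar u v := by
    by_contra hcon
    push Not at hcon
    apply he
    refine Finset.mem_filter.mpr ⟨Finset.mem_univ _, hek, ?_⟩
    intro D hD hDc hDz hall
    obtain ⟨u, hu, v, hv, huv, h⟩ := hcon D hD hDc hDz
    exact h (hall u hu v hv huv)
  obtain ⟨D, hDe, hDc, hDz, hDf⟩ := hD
  have heU : ∀ i, (e.filter (G.inU i)).card ≤ s := by
    intro i
    have h1 := G.card_inter_le_one hDf i
    have h2 := Finset.card_filter_add_card_filter_not (s := D) (G.inU i)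
    have h3 := Finset.card_filter_add_card_filter_not (s := e) (G.inU i)
    have h4 : (D.filter (fun v => ¬ G.inU i v)).card ≤ (e.filter (fun v => ¬ G.inU i v)).card :=
      Finset.card_le_card (Finset.filter_subset_filter _ hDe)
    omega
  -- minimal vertex
  obtain ⟨r0, hr0e, hr0z, hr0min⟩ : ∃ r0 ∈ e, r0 ≠ G.z ∧ ∀ v ∈ e, v ≠ G.z → G.h r0 ≤ G.h v := by
    have hne : (e.filter (fun v => v ≠ G.z)).Nonempty := by
      obtain ⟨v, hv⟩ : D.Nonempty := Finset.card_pos.mp (by omega)
      exact ⟨v, Finset.mem_filter.mpr ⟨hDe hv, fun h => hDz (h ▸ hv)⟩⟩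
    obtain ⟨r0, hr0, hmin⟩ := Finset.exists_min_image _ G.h hne
    obtain ⟨h1, h2⟩ := Finset.mem_filter.mp hr0
    exact ⟨r0, h1, h2, fun v hv hvz => hmin v (Finset.mem_filter.mpr ⟨hv, hvz⟩)⟩
  obtain ⟨r1, Al, hA⟩ := exists_AList hl hDe hDc hDz hDf r0 hr0min
  have hr0A : r0 ∉ Al := fun h => by have := hA.high r0 h hr0z; omega
  have hAsub : Al.toFinset ⊆ e := fun v hv => hA.sub v (List.mem_toFinset.mp hv)
  have hAc : Al.toFinset.card = l := by rw [List.toFinset_card_of_nodup hA.nd, hA.len]
  let C0 := ((e \ Al.toFinset).erase r0).toList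
  have hC0mem : ∀ v, v ∈ C0 ↔ v ≠ r0 ∧ v ∈ e ∧ v ∉ Al := by
    intro v
    simp only [C0, Finset.mem_toList, Finset.mem_erase, Finset.mem_sdiff, List.mem_toFinset]
  have hC0len : C0.length + 1 = s := by
    simp only [C0, Finset.length_toList]
    rw [Finset.card_erase_of_mem (Finset.mem_sdiff.mpr ⟨hr0e, by
      rw [List.mem_toFinset]; exact hr0A⟩), Finset.card_sdiff_of_subset hAsub, hek, hAc]
    omega
  set C := C0 ++ [r0] with hC
  have hClen : C.length = s := by rw [hC, List.length_append, List.length_singleton]; exact hC0len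
  have hCnd : C.Nodup := by
    rw [hC, List.nodup_append]
    refine ⟨Finset.nodup_toList _, by simp, ?_⟩
    intro v hv w hw hvw
    rw [List.mem_singleton] at hw
    exact ((hC0mem v).mp hv).1 (hvw.trans hw)
  have hCmem : ∀ v, v ∈ C ↔ v ∈ e ∧ v ∉ Al := by
    intro v
    rw [hC, List.mem_append, hC0mem, List.mem_singleton]
    constructor
    · rintro (h | h)
      · exact h.2
      · rw [h]; exact ⟨hr0e, hr0A⟩
    · intro h
      by_cases h2 : v = r0
      · exact Or.inr h2
      · exact Or.inl ⟨h2, h⟩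
  -- general facts about orderings `Al ++ C'`
  have hEfacts : ∀ C' : List (Fin n), C'.Nodup → (∀ v, v ∈ C' ↔ v ∈ C) →
      (Al ++ C').Nodup ∧ (Al ++ C').toFinset = e ∧ (Al ++ C').length = k := by
    intro C' hnd hmem
    have h1 : (Al ++ C').Nodup := by
      rw [List.nodup_append]
      refine ⟨hA.nd, hnd, ?_⟩
      intro v hv w hw hvw
      subst hvw
      exact ((hCmem v).mp ((hmem v).mp hw)).2 hv
    have h2 : (Al ++ C').toFinset = e := by
      ext v
      rw [List.mem_toFinset, List.mem_append, hmem, hCmem]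
      constructor
      · rintro (h | h)
        · exact hA.sub v h
        · exact h.1
      · intro h
        by_cases h2 : v ∈ Al
        · exact Or.inl h2
        · exact Or.inr ⟨h, h2⟩
    refine ⟨h1, h2, ?_⟩
    rw [← List.toFinset_card_of_nodup h1, h2, hek]
  have hzC : G.z ∉ C := fun h => ((hCmem _).mp h).2 (hA.zmem ((hCmem _).mp h).1)
  have hzdrop : G.z ∉ Al.drop s := fun h => hA.ztail (drop_subset_of_le hs h)
  by_cases hclean : ∀ u ∈ (Al ++ C).drop s, ∀ v ∈ (Al ++ C).drop s, u ≠ v → u ≠ G.z → v ≠ G.z →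
      ¬ G.near u v
  · -- clean case
    obtain ⟨hEnd, hEe, hEk⟩ := hEfacts C hCnd (fun _ => Iff.rfl)
    have hiR : G.h r0 < G.N := G.h_lt r0 hr0z
    have hiL : G.h r1 < G.N := G.h_lt r1 hA.r1z
    have hiRL : G.h r0 ≠ G.h r1 := by
      have := hA.high r1 hA.r1mem hA.r1z
      omega
    obtain ⟨XR, KR, FR, xR, κR, hXRl, hKRl, hFRl, hXR, hXRfar, hxR, hKR, hκR, hFR, _, hRnd, hRe⟩ :=
      choose_side hl hs hiR hτ e hek (heU _) 0 (by omega)
    obtain ⟨XL, KL, FL, xL, κL, hXLl, hKLl, hFLl, hXL, hXLfar, hxL, hKL, hκL, hFL, _, hLnd, hLe⟩ :=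
      choose_side hl hs hiL hτ e hek (heU _) 0 (by omega)
    -- the special vertex on the left
    obtain ⟨xL', hxL', hLnd', hLe', hz'⟩ : ∃ xL', (xL' = G.z ∨ G.spec (G.h r1) xL') ∧
        (XL ++ [xL'] ++ KL ++ FL ++ [κL]).Nodup ∧
        (∀ v ∈ XL ++ [xL'] ++ KL ++ FL ++ [κL], v ∉ e) ∧
        G.z ∈ (Al ++ C) ++ (XL ++ [xL'] ++ KL ++ FL ++ [κL]) := by
      by_cases hz : G.z ∈ e
      · refine ⟨xL, Or.inr hxL, hLnd, hLe, ?_⟩
        rw [← hEe, List.mem_toFinset] at hz
        exact List.mem_append_left _ hz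
      · refine ⟨G.z, Or.inl rfl, ?_, ?_, ?_⟩
        · have hperm : (XL ++ [G.z] ++ KL ++ FL ++ [κL]).Perm
              (G.z :: (XL ++ KL ++ FL ++ [κL])) := by
            simp only [List.append_assoc, List.singleton_append]
            exact List.perm_middle
          rw [hperm.nodup_iff, List.nodup_cons]
          refine ⟨?_, hLnd.sublist ?_⟩
          · intro h
            simp only [List.mem_append, List.mem_singleton] at h
            have hτ' : 2 * s + 1 ≤ G.τ := by omega
            rcases h with ((h | h) | h) | h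
            · exact (spec_inU hiL (hXL _ h)).1 rfl
            · exact (spec_inU hiL (keys_spec hτ' (hKL _ h))).1 rfl
            · exact (spec_inU hiL (hFL _ h)).1 rfl
            · exact (spec_inU hiL (keys_spec hτ' hκL)).1 h.symm
          · simp only [List.append_assoc]
            exact List.Sublist.append_left (List.sublist_append_right _ _) _
        · intro v hv
          simp only [List.mem_append, List.mem_singleton] at hv
          rcases hv with (((h | h) | h) | h) | h
          · exact hLe v (by simp [h])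
          · rw [h]; exact hz
          · exact hLe v (by simp [h])
          · exact hLe v (by simp [h])
          · exact hLe v (by simp [h])
        · simp
    have hτ' : 2 * s + 1 ≤ G.τ := by omega
    have hRspec : ∀ v ∈ XR ++ [xR] ++ KR ++ FR ++ [κR], G.spec (G.h r0) v := by
      intro v hv
      simp only [List.mem_append, List.mem_singleton] at hv
      rcases hv with (((h | h) | h) | h) | h
      · exact hXR v h
      · rw [h]; exact hxR
      · exact keys_spec hτ' (hKR v h)
      · exact hFR v h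
      · rw [h]; exact keys_spec hτ' hκR
    have hLspec : ∀ v ∈ XL ++ [xL'] ++ KL ++ FL ++ [κL], v = G.z ∨ G.spec (G.h r1) v := by
      intro v hv
      simp only [List.mem_append, List.mem_singleton] at hv
      rcases hv with (((h | h) | h) | h) | h
      · exact Or.inr (hXL v h)
      · rw [h]; exact hxL'
      · exact Or.inr (keys_spec hτ' (hKL v h))
      · exact Or.inr (hFL v h)
      · rw [h]; exact Or.inr (keys_spec hτ' hκL)
    have hκRspec := keys_spec hτ' hκR
    have hκLspec := keys_spec hτ' hκL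
    have hmemE : ∀ v, v ∈ Al ++ C ↔ v ∈ e := fun v => by rw [← hEe, List.mem_toFinset]
    have hndAll : ((Al ++ C) ++ (XR ++ [xR] ++ KR ++ FR ++ [κR]) ++
        (XL ++ [xL'] ++ KL ++ FL ++ [κL])).Nodup := by
      rw [List.nodup_append, List.nodup_append]
      refine ⟨⟨hEnd, hRnd, ?_⟩, hLnd', ?_⟩
      · intro v hv w hw hvw
        subst hvw
        exact hRe v hw ((hmemE v).mp hv)
      · intro v hv w hw hvw
        subst hvw
        rcases List.mem_append.mp hv with h | h
        · exact hLe' v hw ((hmemE v).mp h)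
        · have h1 := spec_inU hiR (hRspec v h)
          rcases hLspec v hw with h2 | h2
          · exact h1.1 h2
          · have h3 := spec_inU hiL h2
            exact hiRL (h1.2.symm.trans h3.2)
    refine assemble (G := G) (l := l) (by omega) hs hd hw (Al ++ C)
      (XR ++ [xR] ++ KR ++ FR ++ [κR]) (XL ++ [xL'] ++ KL ++ FL ++ [κL]) e hEk
      (G.g κR) (G.g κL) (G.g_lt _ (spec_inU hiR hκRspec).1) (G.g_lt _ (spec_inU hiL hκLspec).1)
      ?_ hndAll ?_ ?_ ?_ ?_
    · intro h
      have h1 := G.h_of_g _ _ h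
      rw [(spec_inU hiR hκRspec).2, (spec_inU hiL hκLspec).2] at h1
      exact hiRL h1
    · rw [List.append_assoc]
      rcases List.mem_append.mp hz' with h | h
      · exact List.mem_append_left _ h
      · exact List.mem_append_right _ (List.mem_append_right _ h)
    · intro v hv
      rcases List.mem_append.mp hv with h | h
      · exact Or.inr ⟨_, hiR, hRspec v h⟩
      · rcases hLspec v h with h | h
        · exact Or.inl h
        · exact Or.inr ⟨_, hiL, h⟩
    · intro S1 S2 hS1 hS1g hSz hSn hnd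
      refine side_clean hkl hl hs hiR (Al ++ C) XR KR FR S1 S2 xR κR e hEe hEk hXRl hKRl hFRl hS1
        hclean ?_ ?_ hXR ?_ (Or.inr hxR) hτ' hKR hκR hFR hS1g hSz hSn hnd
      · intro v hv hvz
        exact hr0min v ((hmemE v).mp (List.mem_of_mem_drop hv)) hvz
      · intro p hsp hpk
        have hE2 : Al ++ C = (Al ++ C0) ++ [r0] := by rw [hC, List.append_assoc]
        have hl2 : (Al ++ C0).length + 1 = k := by
          rw [← hEk, hE2]; simp only [List.length_append, List.length_singleton]
        have hr : r0 ∈ (Al ++ C).drop p := by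
          rw [hE2, List.drop_append_of_le_length (by omega)]
          simp
        have hsub : ((Al ++ C).drop p).toFinset.filter (fun v => ¬ G.inU (G.h r0) v) ⊆
            ((Al ++ C).drop p).toFinset.erase r0 := by
          intro v hv
          obtain ⟨hv1, hv2⟩ := Finset.mem_filter.mp hv
          refine Finset.mem_erase.mpr ⟨?_, hv1⟩
          rintro rfl
          exact hv2 ⟨hr0z, rfl⟩
        have h1 := Finset.card_le_card hsub
        rw [Finset.card_erase_of_mem (List.mem_toFinset.mpr hr)] at h1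
        have h2 := List.toFinset_card_le ((Al ++ C).drop p)
        rw [List.length_drop, hEk] at h2
        omega
      · intro v hv u hu huz
        exact hXRfar v hv u ((hmemE u).mp hu) huz
    · intro S1 S2 hS1 hS1g hSz hSn hnd
      exact left_side hkl hl hs hA hEe hEk hXLl hKLl hFLl hS1 hXL hXLfar hxL' hτ' hKL hκL hFL
        hS1g hSz hSn hnd
  · -- dirty case
    push Not at hclean
    obtain ⟨u0, hu0, v0, hv0, huv0, hu0z, hv0z, hnear0⟩ := hclean
    -- one of the two is in C
    obtain ⟨u, hu, v, hv, huv, huz, hvz, hnear, huA⟩ : ∃ u, u ∈ (Al ++ C).drop s ∧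
        ∃ v, v ∈ (Al ++ C).drop s ∧ v ≠ u ∧ u ≠ G.z ∧ v ≠ G.z ∧ G.near u v ∧ u ∉ Al := by
      by_cases huA : u0 ∈ Al
      · by_cases hvA : v0 ∈ Al
        · exact absurd hnear0 (G.not_near_of_hfar (hA.far u0 huA v0 hvA huv0 hu0z hv0z))
        · exact ⟨v0, hv0, u0, hu0, huv0, hv0z, hu0z, G.near_symm hnear0, hvA⟩
      · exact ⟨u0, hu0, v0, hv0, huv0.symm, hu0z, hv0z, hnear0, huA⟩
    have hdropE : ∀ C' : List (Fin n), C'.length = s →
        (Al ++ C').drop s = Al.drop s ++ C'.drop (s - l) := by
      intro C' hC'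
      rw [List.drop_append, hA.len]
    have huC : u ∈ C.drop (s - l) := by
      rw [hdropE C hClen] at hu
      rcases List.mem_append.mp hu with h | h
      · exact absurd (List.mem_of_mem_drop h) huA
      · exact h
    set B := C.drop (s - l) with hB
    have hBnd : B.Nodup := hCnd.sublist (List.drop_sublist _ _)
    let C' := C.take (s - l) ++ (B.erase u ++ [u])
    have hperm : C'.Perm C := by
      have h1 : (B.erase u ++ [u]).Perm B :=
        (List.perm_append_comm).trans (List.perm_cons_erase huC).symm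
      have h2 : C'.Perm (C.take (s - l) ++ B) := List.Perm.append_left _ h1
      rwa [hB, List.take_append_drop] at h2
    have hC'nd : C'.Nodup := hperm.nodup_iff.mpr hCnd
    have hC'len : C'.length = s := by rw [hperm.length_eq, hClen]
    have hC'mem : ∀ v, v ∈ C' ↔ v ∈ C := fun v => hperm.mem_iff
    obtain ⟨hEnd, hEe, hEk⟩ := hEfacts C' hC'nd hC'mem
    have hC'drop : C'.drop (s - l) = B.erase u ++ [u] := by
      have : (C.take (s - l)).length = s - l := by
        rw [List.length_take, hClen]; omega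
      simp only [C']
      rw [List.drop_append, this, Nat.sub_self, List.drop_zero,
        List.drop_eq_nil_of_le (by omega), List.nil_append]
    have hiL : G.h r1 < G.N := G.h_lt r1 hA.r1z
    obtain ⟨XL, KL, FL, xL, κL, hXLl, hKLl, hFLl, hXL, hXLfar, hxL, hKL, hκL, hFL, hκg, hLnd, hLe⟩ :=
      choose_side hl hs hiL hτ e hek (heU _) (G.g u) (by omega)
    obtain ⟨xL', hxL', hLnd', hLe', hz'⟩ : ∃ xL', (xL' = G.z ∨ G.spec (G.h r1) xL') ∧
        (XL ++ [xL'] ++ KL ++ FL ++ [κL]).Nodup ∧
        (∀ v ∈ XL ++ [xL'] ++ KL ++ FL ++ [κL], v ∉ e) ∧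
        G.z ∈ (Al ++ C') ++ (XL ++ [xL'] ++ KL ++ FL ++ [κL]) := by
      by_cases hz : G.z ∈ e
      · refine ⟨xL, Or.inr hxL, hLnd, hLe, ?_⟩
        rw [← hEe, List.mem_toFinset] at hz
        exact List.mem_append_left _ hz
      · refine ⟨G.z, Or.inl rfl, ?_, ?_, ?_⟩
        · have hperm : (XL ++ [G.z] ++ KL ++ FL ++ [κL]).Perm
              (G.z :: (XL ++ KL ++ FL ++ [κL])) := by
            simp only [List.append_assoc, List.singleton_append]
            exact List.perm_middle
          rw [hperm.nodup_iff, List.nodup_cons]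
          refine ⟨?_, hLnd.sublist ?_⟩
          · intro h
            simp only [List.mem_append, List.mem_singleton] at h
            have hτ' : 2 * s + 1 ≤ G.τ := by omega
            rcases h with ((h | h) | h) | h
            · exact (spec_inU hiL (hXL _ h)).1 rfl
            · exact (spec_inU hiL (keys_spec hτ' (hKL _ h))).1 rfl
            · exact (spec_inU hiL (hFL _ h)).1 rfl
            · exact (spec_inU hiL (keys_spec hτ' hκL)).1 h.symm
          · simp only [List.append_assoc]
            exact List.Sublist.append_left (List.sublist_append_right _ _) _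
        · intro v hv
          simp only [List.mem_append, List.mem_singleton] at hv
          rcases hv with (((h | h) | h) | h) | h
          · exact hLe v (by simp [h])
          · rw [h]; exact hz
          · exact hLe v (by simp [h])
          · exact hLe v (by simp [h])
          · exact hLe v (by simp [h])
        · simp
    have hτ' : 2 * s + 1 ≤ G.τ := by omega
    have hLspec : ∀ v ∈ XL ++ [xL'] ++ KL ++ FL ++ [κL], v = G.z ∨ G.spec (G.h r1) v := by
      intro v hv
      simp only [List.mem_append, List.mem_singleton] at hv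
      rcases hv with (((h | h) | h) | h) | h
      · exact Or.inr (hXL v h)
      · rw [h]; exact hxL'
      · exact Or.inr (keys_spec hτ' (hKL v h))
      · exact Or.inr (hFL v h)
      · rw [h]; exact Or.inr (keys_spec hτ' hκL)
    have hκLspec := keys_spec hτ' hκL
    have hmemE : ∀ v, v ∈ Al ++ C' ↔ v ∈ e := fun v => by rw [← hEe, List.mem_toFinset]
    have hndAll : ((Al ++ C') ++ [] ++ (XL ++ [xL'] ++ KL ++ FL ++ [κL])).Nodup := by
      rw [List.append_nil, List.nodup_append]
      refine ⟨hEnd, hLnd', ?_⟩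
      intro v hv w hw hvw
      subst hvw
      exact hLe' v hw ((hmemE v).mp hv)
    refine assemble (G := G) (l := l) (by omega) hs hd hw (Al ++ C')
      [] (XL ++ [xL'] ++ KL ++ FL ++ [κL]) e hEk
      (G.g u) (G.g κL) (G.g_lt _ huz) (G.g_lt _ (spec_inU hiL hκLspec).1)
      hκg.symm hndAll ?_ ?_ ?_ ?_
    · rw [List.append_nil]; exact hz'
    · intro v hv
      rw [List.nil_append] at hv
      rcases hLspec v hv with h | h
      · exact Or.inl h
      · exact Or.inr ⟨_, hiL, h⟩
    · intro S1 S2 hS1 hS1g hSz hSn hnd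
      rw [List.append_nil] at hnd ⊢
      refine side_dirty hkl hl hs (Al ++ C') S1 S2 u v e hEe hEk hS1 ?_ ?_ huv hnear ?_ hS1g hSz
        hSn hnd
      · simp only [C']
        rw [← List.append_assoc, ← List.append_assoc]
        exact List.getLast?_concat
      · rw [hdropE C' hC'len, hC'drop]
        rw [hdropE C hClen] at hv
        rcases List.mem_append.mp hv with h | h
        · exact List.mem_append_left _ h
        · refine List.mem_append_right _ (List.mem_append_left _ ?_)
          exact (List.mem_erase_of_ne huv).mpr h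
      · rw [hdropE C' hC'len, List.mem_append]
        rintro (h | h)
        · exact hzdrop h
        · exact hzC ((hC'mem _).mp (List.mem_of_mem_drop h))
    · intro S1 S2 hS1 hS1g hSz hSn hnd
      exact left_side hkl hl hs hA hEe hEk hXLl hKLl hFLl hS1 hXL hXLfar hxL' hτ' hKL hκL hFL
        hS1g hSz hSn hnd

end Geo

end Pool.Agent.Helper74.HamSat
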