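import Pool.Agent.Helper74.HamSat.NonHam
import Pool.Agent.Helper74.HamSat.Good
import Pool.Agent.Helper74.HamSat.Exist

set_option autoImplicit false
open Classical

namespace Pool.Agent.Helper74.HamSat

/-- The order of magnitude of the saturation number for `2 ≤ l < k`. -/
theorem goal_ge_two {k l : ℕ} (hl : 2 ≤ l) (hlk : l < k) : Goal k l := by
  obtain ⟨s, hs, hkl⟩ : ∃ s, 1 ≤ s ∧ k = l + s := ⟨k - l, by omega, by omega⟩
  set τ := 2 * s + 1 + k + k * (2 * s - 1) + l with hτ
  set B := 2 * (3 * τ * (4 * k)) with hB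
  refine goal_of_construction (s := s) (by omega) hs hkl (2 * 2 ^ (1 + l * (3 * B)))
    (3 * τ * (4 * k) + 1 + (2 * (k * B * s) + 2 * k)) ?_
  intro n hn hd
  obtain ⟨G, hGw, hGτ, hGB⟩ := exists_geo k τ n (by omega) (by omega) (by omega)
  rw [← hB] at hGB
  have hn0 : 0 < n := by omega
  refine ⟨G.H0 k l s, G.Bad k l, G.H0_card_eq, ?_, ?_, ?_⟩
  · refine G.not_ham hkl hs hd ?_
    rw [hGB]
    omega
  · intro e hek he _
    exact Geo.good hkl hl hs hd (by omega) (by omega) e hek he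
  · have h1 := G.Bad_card (k := k) (l := l) hn0
    have h2 := Finset.card_le_card (G.H0_sub_Bad (k := k) (l := l) (s := s) hkl hl)
    rw [hGB] at h1
    have h3 : 2 * 2 ^ (1 + l * (3 * B)) * n ^ l = 2 ^ (1 + l * (3 * B)) * n ^ l +
      2 ^ (1 + l * (3 * B)) * n ^ l := by ring
    omega

end Pool.Agent.Helper74.HamSat
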