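import Pool.Agent.Helper74.HamSat.Zone

set_option autoImplicit false
open Classical

namespace Pool.Agent.Helper74.HamSat

theorem W_inter {n k s l : ℕ} {c : ℕ → Fin n} (hc : Circ n c) (hkl : k = l + s) (hkn : k ≤ n)
    (i : ℕ) : l ≤ (W c k s i ∩ W c k s (i + 1)).card := by
  have hinj : Set.InjOn (fun j => c (i * s + (s + j))) (Finset.range l : Set ℕ) := by
    intro a ha b hb hab
    simp only [Finset.coe_range, Set.mem_Iio] at ha hb
    have h1 := (hc.eq_iff _ _).mp hab
    have h2 : (s + a) % n = (s + b) % n := Nat.ModEq.add_left_cancel' _ h1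
    rw [Nat.mod_eq_of_lt (by omega), Nat.mod_eq_of_lt (by omega)] at h2
    omega
  have hsub : (Finset.range l).image (fun j => c (i * s + (s + j))) ⊆
      W c k s i ∩ W c k s (i + 1) := by
    intro v hv
    obtain ⟨j, hj, rfl⟩ := Finset.mem_image.mp hv
    simp only [Finset.mem_range] at hj
    rw [Finset.mem_inter]
    constructor
    · exact Finset.mem_image.mpr ⟨s + j, Finset.mem_range.mpr (by omega), rfl⟩
    · refine Finset.mem_image.mpr ⟨j, Finset.mem_range.mpr (by omega), ?_⟩
      congr 1
      ring
  calc l = ((Finset.range l).image (fun j => c (i * s + (s + j)))).card := by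
        rw [Finset.card_image_of_injOn hinj, Finset.card_range]
    _ ≤ _ := Finset.card_le_card hsub

theorem W_period {n k s : ℕ} {c : ℕ → Fin n} (hc : Circ n c) (hd : s ∣ n) (i : ℕ) :
    W c k s (i + n / s) = W c k s i := by
  simp only [W]
  congr 1
  funext j
  have : (i + n / s) * s + j = i * s + j + n := by
    rw [Nat.add_mul, Nat.div_mul_cancel hd]; ring
  rw [this, hc.per]

theorem W_mod {n k s : ℕ} {c : ℕ → Fin n} (hc : Circ n c) (hd : s ∣ n) (i : ℕ) :
    W c k s (i % (n / s)) = W c k s i := by
  have key : ∀ q j, W c k s (j + q * (n / s)) = W c k s j := by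
    intro q
    induction q with
    | zero => intro j; simp
    | succ q ih => intro j; rw [Nat.succ_mul, ← Nat.add_assoc, W_period hc hd, ih]
  conv_rhs => rw [← Nat.mod_add_div i (n / s), Nat.mul_comm]
  exact (key _ _).symm

theorem W_all {n k s : ℕ} {c : ℕ → Fin n} (hc : Circ n c) (hd : s ∣ n) (hs : 0 < s) (hn : 0 < n)
    {H : Finset (Finset (Fin n))} (h : ∀ i : ℕ, i < n / s → W c k s i ∈ H) (i : ℕ) :
    W c k s i ∈ H := by
  rw [← W_mod hc hd]
  exact h _ (Nat.mod_lt _ (Nat.div_pos (Nat.le_of_dvd hn hd) hs))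

namespace Geo

variable {n : ℕ} (G : Geo n)

/-- If an element of the family meets a zone set in at least `l` vertices, it is in the same zone
or in the corresponding exit family. -/
theorem zone_step {k l s a : ℕ} (hkl : k = l + s) {f g : Finset (Fin n)}
    (hf : G.Zone k s a f) (hg : g ∈ G.H0 k l s) (hfg : l ≤ (f ∩ g).card) :
    G.Zone k s a g ∨ G.Exit k s a g := by
  have haux : ∀ b b' (f g : Finset (Fin n)), G.Zone k s b f → (∀ v ∈ g, ¬ G.inU b v) →
      l ≤ (f ∩ g).card → b' = b → False := by
    intro b b' f g hf hg hfg _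
    have h1 : f ∩ g ⊆ f.filter (fun v => ¬ G.inU b v) := by
      intro v hv
      rw [Finset.mem_inter] at hv
      exact Finset.mem_filter.mpr ⟨hv.1, hg v hv.2⟩
    have h2 := Finset.card_le_card h1
    have h3 := G.zone_compl hkl hf
    omega
  rcases (Finset.mem_filter.mp hg).2 with ⟨b, h⟩ | ⟨b, h⟩ | h
  · rcases lt_trichotomy a b with hab | hab | hab
    · exfalso
      refine haux a a f g hf ?_ hfg rfl
      intro v hv hin
      have := h.2.2.2 v hv hin.1
      have := hin.2
      omega
    · subst hab; exact Or.inl h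
    · exfalso
      refine haux b b g f h ?_ (by rwa [Finset.inter_comm]) rfl
      intro v hv hin
      have := hf.2.2.2 v hv hin.1
      have := hin.2
      omega
  · by_cases hab : a = b
    · subst hab; exact Or.inr h
    · exfalso
      refine haux a a f g hf ?_ hfg rfl
      intro v hv hin
      have h1 := (h.2.1 v hv).2
      have h2 := hin.2
      omega
  · exfalso
    obtain ⟨D, hD, hDc⟩ := Finset.exists_subset_card_eq hfg
    refine h.2.2 D (hD.trans Finset.inter_subset_right) hDc ?_
    intro u hu v hv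
    exact hf.2.1 u (Finset.inter_subset_left (hD hu)) v (Finset.inter_subset_left (hD hv))

theorem not_ham {k l s : ℕ} (hkl : k = l + s) (hs : 1 ≤ s) (hd : s ∣ n)
    (hn : 2 * (k * G.B * s) + 2 * k ≤ n) : ¬ Ham n k s (G.H0 k l s) := by
  rintro ⟨c, hc, hw0⟩
  have hn0 : 0 < n := by omega
  have hkn : k ≤ n := by omega
  have hw := W_all hc hd hs hn0 hw0
  obtain ⟨p, hp, hpz⟩ := hc.surj G.z
  -- shifted position
  set m := n / s with hm
  have hms : m * s = n := Nat.div_mul_cancel hd
  set T0 := p / s + m with hT0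
  have hps : p / s * s ≤ p := Nat.div_mul_le_self _ _
  have hps2 : p < p / s * s + s := by
    have := Nat.lt_div_mul_add (a := p) (b := s) (by omega)
    omega
  have hT0s : T0 * s = p / s * s + n := by rw [hT0, Nat.add_mul, hms]
  have hz : c (p + n) = G.z := by rw [hc.per, hpz]
  have hzW : G.z ∈ W c k s T0 := by
    refine Finset.mem_image.mpr ⟨p + n - T0 * s, Finset.mem_range.mpr (by omega), ?_⟩
    have : T0 * s + (p + n - T0 * s) = p + n := by omega
    simp only [this, hz]
  obtain ⟨a, ha⟩ : ∃ a, G.Zone k s a (W c k s T0) := by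
    rcases (Finset.mem_filter.mp (hw T0)).2 with ⟨b, h⟩ | ⟨b, h⟩ | h
    · exact ⟨b, h⟩
    · exact absurd rfl (h.2.1 _ hzW).1
    · exact absurd hzW h.2.1
  -- some window is not a zone window
  have hcount : ∀ j, ∃ q ≤ G.B, ¬ G.Zone k s a (W c k s (j + k * q)) := by
    intro j
    by_contra hcon
    push Not at hcon
    have hex : ∀ q : ℕ, ∃ t, t < k ∧ (q ≤ G.B → G.inU a (c ((j + k * q) * s + t))) := by
      intro q
      by_cases hq : q ≤ G.B
      · have h1 := (hcon q hq).2.2.1
        have h2 : ((W c k s (j + k * q)).filter (G.inU a)).Nonempty :=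
          Finset.card_pos.mp (by omega)
        obtain ⟨v, hv⟩ := h2
        obtain ⟨hv1, hv2⟩ := Finset.mem_filter.mp hv
        obtain ⟨t, ht, rfl⟩ := Finset.mem_image.mp hv1
        exact ⟨t, Finset.mem_range.mp ht, fun _ => hv2⟩
      · exact ⟨0, by omega, fun h => absurd h hq⟩
    choose t ht1 ht2 using hex
    have hinj : Set.InjOn (fun q => c ((j + k * q) * s + t q)) (Finset.range (G.B + 1) : Set ℕ) := by
      intro q hq q' hq' heq
      simp only [Finset.coe_range, Set.mem_Iio] at hq hq'
      by_contra hne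
      have key : ∀ q q' : ℕ, q < q' → q' ≤ G.B →
          c ((j + k * q) * s + t q) ≠ c ((j + k * q') * s + t q') := by
        intro q q' hlt hle heq
        have h1 := (hc.eq_iff _ _).mp heq
        have e1 : (j + k * q) * s + t q = j * s + (k * q * s + t q) := by ring
        have e2 : (j + k * q') * s + t q' = j * s + (k * q' * s + t q') := by ring
        rw [e1, e2] at h1
        have h2 : (k * q * s + t q) % n = (k * q' * s + t q') % n :=
          Nat.ModEq.add_left_cancel' _ h1
        have b1 : k * q' * s ≤ k * G.B * s := by gcongr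
        have b2 : k * q * s ≤ k * G.B * s := by gcongr; omega
        have b3 : k * q * s + k ≤ k * q' * s := by
          have : k * (q + 1) * s ≤ k * q' * s := by gcongr; omega
          have e3 : k * (q + 1) * s = k * q * s + k * s := by ring
          have e4 : k ≤ k * s := Nat.le_mul_of_pos_right _ (by omega)
          omega
        have := ht1 q
        have := ht1 q'
        rw [Nat.mod_eq_of_lt (by omega), Nat.mod_eq_of_lt (by omega)] at h2
        omega
      rcases Nat.lt_or_gt_of_ne hne with h | h
      · exact key q q' h (by omega) heq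
      · exact key q' q h (by omega) heq.symm
    have hsub : (Finset.range (G.B + 1)).image (fun q => c ((j + k * q) * s + t q)) ⊆
        Finset.univ.filter (fun v : Fin n => v ≠ G.z ∧ G.h v = a) := by
      intro v hv
      obtain ⟨q, hq, rfl⟩ := Finset.mem_image.mp hv
      have := ht2 q (by have := Finset.mem_range.mp hq; omega)
      exact Finset.mem_filter.mpr ⟨Finset.mem_univ _, this.1, this.2⟩
    have h1 := Finset.card_le_card hsub
    rw [Finset.card_image_of_injOn hinj, Finset.card_range] at h1
    have h2 := G.cardU a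
    omega
  -- right exit
  have hR : ∃ r, ¬ G.Zone k s a (W c k s (T0 + r)) ∧ r ≤ k * G.B := by
    obtain ⟨q, hq, h⟩ := hcount T0
    exact ⟨k * q, h, Nat.mul_le_mul_left _ hq⟩
  have hkB : k * G.B ≤ m := by
    by_contra hcon
    push Not at hcon
    have : m * s < k * G.B * s := Nat.mul_lt_mul_of_pos_right hcon (by omega)
    omega
  have hT0ge : k * G.B ≤ T0 := hkB.trans (Nat.le_add_left _ _)
  have hL : ∃ r, ¬ G.Zone k s a (W c k s (T0 - r)) ∧ r ≤ k * G.B := by
    obtain ⟨q, hq, h⟩ := hcount (T0 - k * G.B)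
    refine ⟨k * (G.B - q), ?_, Nat.mul_le_mul_left _ (by omega)⟩
    have e : T0 - k * (G.B - q) = T0 - k * G.B + k * q := by
      have : k * G.B = k * (G.B - q) + k * q := by rw [← Nat.mul_add]; congr 1; omega
      omega
    rwa [e]
  have hR0 := Nat.find_spec hR
  have hRm := fun r (h : r < Nat.find hR) => Nat.find_min hR h
  have hL0 := Nat.find_spec hL
  have hLm := fun r (h : r < Nat.find hL) => Nat.find_min hL h
  set rR := Nat.find hR with hrR
  set rL := Nat.find hL with hrL
  clear_value rR rL
  have hRpos : 0 < rR := by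
    rcases Nat.eq_zero_or_pos rR with h | h
    · rw [h] at hR0; exact absurd ha hR0.1
    · exact h
  have hLpos : 0 < rL := by
    rcases Nat.eq_zero_or_pos rL with h | h
    · rw [h] at hL0; exact absurd ha hL0.1
    · exact h
  have hRprev : G.Zone k s a (W c k s (T0 + (rR - 1))) := by
    have := hRm (rR - 1) (by omega)
    by_contra hcon
    exact this ⟨hcon, by omega⟩
  have hLprev : G.Zone k s a (W c k s (T0 - (rL - 1))) := by
    have := hLm (rL - 1) (by omega)
    by_contra hcon
    exact this ⟨hcon, by omega⟩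
  have hRexit : G.Exit k s a (W c k s (T0 + rR)) := by
    have h1 := W_inter hc hkl hkn (T0 + (rR - 1))
    have e : T0 + (rR - 1) + 1 = T0 + rR := by omega
    rw [e] at h1
    exact (G.zone_step hkl hRprev (hw _) h1).resolve_left hR0.1
  have hLexit : G.Exit k s a (W c k s (T0 - rL)) := by
    have h1 := W_inter hc hkl hkn (T0 - rL)
    have e : T0 - rL + 1 = T0 - (rL - 1) := by omega
    rw [e, Finset.inter_comm] at h1
    exact (G.zone_step hkl hLprev (hw _) h1).resolve_left hL0.1
  -- positions
  have e1 : (T0 - rL) * s + rL * s = T0 * s := by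
    rw [← Nat.add_mul]; congr 1; omega
  have e2 : (T0 + rR) * s = T0 * s + rR * s := by ring
  have b1 : rL * s ≤ k * G.B * s := Nat.mul_le_mul_right _ hL0.2
  have b2 : rR * s ≤ k * G.B * s := Nat.mul_le_mul_right _ hR0.2
  have b3 : s ≤ rL * s := Nat.le_mul_of_pos_left _ hLpos
  have b4 : s ≤ rR * s := Nat.le_mul_of_pos_left _ hRpos
  have hLpos2 : (T0 - rL) * s + k ≤ p + n := by
    by_contra hcon
    push Not at hcon
    have : G.z ∈ W c k s (T0 - rL) := by
      refine Finset.mem_image.mpr ⟨p + n - (T0 - rL) * s, Finset.mem_range.mpr (by omega), ?_⟩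
      have : (T0 - rL) * s + (p + n - (T0 - rL) * s) = p + n := by omega
      simp only [this, hz]
    exact (hLexit.2.1 _ this).1 rfl
  have hdisj : Disjoint (W c k s (T0 - rL) ∩ G.Keys s a) (W c k s (T0 + rR) ∩ G.Keys s a) := by
    rw [Finset.disjoint_left]
    intro v hv1 hv2
    rw [Finset.mem_inter] at hv1 hv2
    obtain ⟨x, hx, hx2⟩ := Finset.mem_image.mp hv1.1
    obtain ⟨y, hy, hy2⟩ := Finset.mem_image.mp hv2.1
    rw [Finset.mem_range] at hx hy
    have h1 := (hc.eq_iff _ _).mp (hx2.trans hy2.symm)
    have e3 : (T0 + rR) * s + y = (T0 - rL) * s + x + ((T0 + rR) * s + y - ((T0 - rL) * s + x)) := by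
      omega
    rw [e3] at h1
    have h2 : (T0 - rL) * s + x + 0 ≡ (T0 - rL) * s + x +
      ((T0 + rR) * s + y - ((T0 - rL) * s + x)) [MOD n] := h1
    have h3 := Nat.ModEq.add_left_cancel' _ h2
    have h4 : (0 : ℕ) % n = ((T0 + rR) * s + y - ((T0 - rL) * s + x)) % n := h3
    rw [Nat.zero_mod, Nat.mod_eq_of_lt (by omega)] at h4
    omega
  have h1 := hLexit.2.2
  have h2 := hRexit.2.2
  have h3 : (W c k s (T0 - rL) ∩ G.Keys s a) ∪ (W c k s (T0 + rR) ∩ G.Keys s a) ⊆ G.Keys s a :=
    Finset.union_subset Finset.inter_subset_right Finset.inter_subset_right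
  have h4 := Finset.card_le_card h3
  rw [Finset.card_union_of_disjoint hdisj] at h4
  have h5 : (G.Keys s a).card ≤ 2 * s + 1 := by
    rw [Keys]
    exact Finset.card_image_le.trans (by rw [Finset.card_range])
  omega

end Geo

end Pool.Agent.Helper74.HamSat
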