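import Pool.Agent.Helper74.HamSat.Cyc

set_option autoImplicit false
open Classical

namespace Pool.Agent.Helper74.HamSat

/-- Auxiliary layout of the vertex set. -/
structure Geo (n : ℕ) where
  z : Fin n
  g : Fin n → ℕ
  h : Fin n → ℕ
  half : Fin n → ℕ
  M : ℕ
  N : ℕ
  τ : ℕ
  B : ℕ
  w : ℕ
  φ : ℕ → ℕ → Fin n
  g_lt : ∀ v, v ≠ z → g v < M
  half_lt : ∀ v, half v < 2
  h_lt : ∀ v, v ≠ z → h v < N
  h_of_g : ∀ u v, g u = g v → h u = h v
  h_near : ∀ u v, g u ≤ g v + 1 → h u ≤ h v + 1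
  φ_z : ∀ i t, i < N → t < τ → φ i t ≠ z
  φ_h : ∀ i t, i < N → t < τ → h (φ i t) = i
  φ_sep : ∀ i t i' t' v, i < N → t < τ → i' < N → t' < τ →
    (g (φ i t) ≤ g v + 1 ∧ g v ≤ g (φ i t) + 1) →
    (g (φ i' t') ≤ g v + 1 ∧ g v ≤ g (φ i' t') + 1) → i = i' ∧ t = t'
  cardU : ∀ i, (Finset.univ.filter (fun v : Fin n => v ≠ z ∧ h v = i)).card ≤ B
  cell : ∀ a b, a < M → b < 2 →
    w ≤ (Finset.univ.filter (fun v : Fin n => v ≠ z ∧ g v = a ∧ half v = b)).card

namespace Geo

variable {n : ℕ} (G : Geo n)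

/-- Two vertices in the same or adjacent groups. -/
def near (u v : Fin n) : Prop := G.g u ≤ G.g v + 1 ∧ G.g v ≤ G.g u + 1

/-- Pairwise not near, ignoring the special vertex. -/
def Scat (f : Finset (Fin n)) : Prop :=
  ∀ u ∈ f, ∀ v ∈ f, u ≠ v → u ≠ G.z → v ≠ G.z → ¬ G.near u v

/-- Pairwise near. -/
def Narrow (f : Finset (Fin n)) : Prop := ∀ u ∈ f, ∀ v ∈ f, G.near u v

def inU (i : ℕ) (v : Fin n) : Prop := v ≠ G.z ∧ G.h v = i

def hfar (u v : Fin n) : Prop := G.h u + 2 ≤ G.h v ∨ G.h v + 2 ≤ G.h u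

def Zone (k s i : ℕ) (f : Finset (Fin n)) : Prop :=
  f.card = k ∧ G.Scat f ∧ s + 1 ≤ (f.filter (G.inU i)).card ∧ ∀ v ∈ f, v ≠ G.z → i ≤ G.h v

noncomputable def Keys (s i : ℕ) : Finset (Fin n) := (Finset.range (2 * s + 1)).image (G.φ i)

def Exit (k s i : ℕ) (f : Finset (Fin n)) : Prop :=
  f.card = k ∧ (∀ v ∈ f, G.inU i v) ∧ s + 1 ≤ (f ∩ G.Keys s i).card

def SP (k l : ℕ) (f : Finset (Fin n)) : Prop :=
  f.card = k ∧ G.z ∉ f ∧ ∀ D ⊆ f, D.card = l → ¬ G.Scat D

/-- The sparse non-Hamiltonian family. -/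
noncomputable def H0 (k l s : ℕ) : Finset (Finset (Fin n)) :=
  Finset.univ.filter (fun f => (∃ i, G.Zone k s i f) ∨ (∃ i, G.Exit k s i f) ∨ G.SP k l f)

/-- The few exceptional sets. -/
noncomputable def Bad (k l : ℕ) : Finset (Finset (Fin n)) :=
  Finset.univ.filter (fun f => f.card = k ∧ ∀ D ⊆ f, D.card = l + 1 → G.z ∉ D →
    ¬ ∀ u ∈ D, ∀ v ∈ D, u ≠ v → G.hfar u v)

theorem near_symm {u v : Fin n} (h : G.near u v) : G.near v u := ⟨h.2, h.1⟩

theorem not_near_of_hfar {u v : Fin n} (h : G.hfar u v) : ¬ G.near u v := by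
  intro hn
  have h1 := G.h_near u v hn.1
  have h2 := G.h_near v u hn.2
  rcases h with h | h <;> omega

theorem zone_i_lt {k s i : ℕ} {f : Finset (Fin n)} (h : G.Zone k s i f) : i < G.N := by
  have : (f.filter (G.inU i)).Nonempty := Finset.card_pos.mp (by have := h.2.2.1; omega)
  obtain ⟨v, hv⟩ := this
  have := (Finset.mem_filter.mp hv).2
  rw [← this.2]
  exact G.h_lt v this.1

theorem zone_compl {k l s i : ℕ} (hkl : k = l + s) {f : Finset (Fin n)} (h : G.Zone k s i f) :
    (f.filter (fun v => ¬ G.inU i v)).card + 1 ≤ l := by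
  have h1 := Finset.card_filter_add_card_filter_not (s := f) (G.inU i)
  have h2 := h.1
  have h3 := h.2.2.1
  omega

theorem zone_of {k l s i : ℕ} (hkl : k = l + s) {f : Finset (Fin n)} (h1 : f.card = k)
    (h2 : G.Scat f) (h3 : (f.filter (fun v => ¬ G.inU i v)).card + 1 ≤ l)
    (h4 : ∀ v ∈ f, v ≠ G.z → i ≤ G.h v) : G.Zone k s i f := by
  have h5 := Finset.card_filter_add_card_filter_not (s := f) (G.inU i)
  exact ⟨h1, h2, by omega, h4⟩

/-- a superfar set meets each supergroup at most once -/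
theorem card_inter_le_one {D : Finset (Fin n)} (hD : ∀ u ∈ D, ∀ v ∈ D, u ≠ v → G.hfar u v)
    (i : ℕ) : (D.filter (G.inU i)).card ≤ 1 := by
  rw [Finset.card_le_one]
  intro a ha b hb
  by_contra hab
  have h1 := (Finset.mem_filter.mp ha)
  have h2 := (Finset.mem_filter.mp hb)
  have h3 := hD a h1.1 b h2.1 hab
  have h4 := h1.2.2
  have h5 := h2.2.2
  rcases h3 with h | h <;> omega

theorem H0_card_eq {k l s : ℕ} : ∀ e ∈ G.H0 k l s, e.card = k := by
  intro e he
  rcases (Finset.mem_filter.mp he).2 with ⟨i, h⟩ | ⟨i, h⟩ | h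
  · exact h.1
  · exact h.1
  · exact h.1

theorem H0_sub_Bad {k l s : ℕ} (hkl : k = l + s) (hl : 2 ≤ l) : G.H0 k l s ⊆ G.Bad k l := by
  intro f hf
  have hcard := G.H0_card_eq f hf
  rw [Bad, Finset.mem_filter]
  refine ⟨Finset.mem_univ _, hcard, ?_⟩
  intro D hDf hDc hz hD
  rcases (Finset.mem_filter.mp hf).2 with ⟨i, h⟩ | ⟨i, h⟩ | h
  · have h1 := G.card_inter_le_one hD i
    have h2 := Finset.card_filter_add_card_filter_not (s := D) (G.inU i)
    have h3 := G.zone_compl hkl h
    have h4 : (D.filter (fun v => ¬ G.inU i v)).card ≤ (f.filter (fun v => ¬ G.inU i v)).card :=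
      Finset.card_le_card (Finset.filter_subset_filter _ hDf)
    omega
  · have h1 := G.card_inter_le_one hD i
    have h2 : D.filter (G.inU i) = D := by
      rw [Finset.filter_eq_self]
      intro v hv
      exact h.2.1 v (hDf hv)
    rw [h2] at h1
    omega
  · obtain ⟨D', hD', hD'c⟩ := Finset.exists_subset_card_eq (s := D) (n := l) (by omega)
    apply h.2.2 D' (hD'.trans hDf) hD'c
    intro u hu v hv huv _ _
    exact G.not_near_of_hfar (hD u (hD' hu) v (hD' hv) huv)

/-- Counting the exceptional sets. -/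
theorem Bad_card {k l : ℕ} (hn : 0 < n) : (G.Bad k l).card ≤ 2 ^ (1 + l * (3 * G.B)) * n ^ l := by
  -- neighbourhoods
  let nb : (Fin l → Fin n) → Finset (Fin n) := fun d =>
    insert G.z (Finset.univ.biUnion (fun j : Fin l =>
      Finset.univ.filter (fun v : Fin n => v ≠ G.z ∧ G.h v ≤ G.h (d j) + 1 ∧ G.h (d j) ≤ G.h v + 1)))
  have hnb : ∀ d, (nb d).card ≤ 1 + l * (3 * G.B) := by
    intro d
    refine (Finset.card_insert_le _ _).trans ?_
    rw [Nat.add_comm]
    gcongr
    refine Finset.card_biUnion_le.trans ?_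
    refine (Finset.sum_le_card_nsmul _ _ (3 * G.B) ?_).trans ?_
    · intro j _
      have : Finset.univ.filter (fun v : Fin n => v ≠ G.z ∧ G.h v ≤ G.h (d j) + 1 ∧
          G.h (d j) ≤ G.h v + 1) ⊆
          Finset.univ.filter (fun v : Fin n => v ≠ G.z ∧ G.h v = G.h (d j)) ∪
          (Finset.univ.filter (fun v : Fin n => v ≠ G.z ∧ G.h v = G.h (d j) + 1) ∪
          Finset.univ.filter (fun v : Fin n => v ≠ G.z ∧ G.h v = G.h (d j) - 1)) := by
        intro v hv
        simp only [Finset.mem_filter, Finset.mem_univ, true_and, Finset.mem_union] at hv ⊢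
        obtain ⟨h1, h2, h3⟩ := hv
        have : G.h v = G.h (d j) ∨ G.h v = G.h (d j) + 1 ∨ G.h v = G.h (d j) - 1 := by omega
        rcases this with h | h | h
        · exact Or.inl ⟨h1, h⟩
        · exact Or.inr (Or.inl ⟨h1, h⟩)
        · exact Or.inr (Or.inr ⟨h1, h⟩)
      refine (Finset.card_le_card this).trans ?_
      refine (Finset.card_union_le _ _).trans ?_
      have h1 := G.cardU (G.h (d j))
      have h2 := G.cardU (G.h (d j) + 1)
      have h3 := G.cardU (G.h (d j) - 1)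
      have h4 := Finset.card_union_le
        (Finset.univ.filter (fun v : Fin n => v ≠ G.z ∧ G.h v = G.h (d j) + 1))
        (Finset.univ.filter (fun v : Fin n => v ≠ G.z ∧ G.h v = G.h (d j) - 1))
      omega
    · simp
  have hsub : G.Bad k l ⊆ (Finset.univ : Finset (Fin l → Fin n)).biUnion
      (fun d => (nb d).powerset) := by
    intro f hf
    obtain ⟨hfc, hf2⟩ := (Finset.mem_filter.mp hf).2
    -- maximal superfar subset
    let P : Finset (Finset (Fin n)) := f.powerset.filter (fun D => G.z ∉ D ∧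
      ∀ u ∈ D, ∀ v ∈ D, u ≠ v → G.hfar u v)
    have hP : P.Nonempty := ⟨∅, by simp [P]⟩
    obtain ⟨D, hDP, hmax⟩ := Finset.exists_max_image P Finset.card hP
    obtain ⟨hDf, hDz, hDfar⟩ : D ⊆ f ∧ G.z ∉ D ∧ ∀ u ∈ D, ∀ v ∈ D, u ≠ v → G.hfar u v := by
      simpa [P] using hDP
    have hDl : D.card ≤ l := by
      by_contra hcon
      obtain ⟨D', hD', hD'c⟩ := Finset.exists_subset_card_eq (s := D) (n := l + 1) (by omega)
      exact hf2 D' (hD'.trans hDf) hD'c (fun h => hDz (hD' h))
        (fun u hu v hv huv => hDfar u (hD' hu) v (hD' hv) huv)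
    have hcov : ∀ v ∈ f, v ≠ G.z → ∃ d ∈ D, G.h v ≤ G.h d + 1 ∧ G.h d ≤ G.h v + 1 := by
      intro v hv hvz
      by_cases hvD : v ∈ D
      · exact ⟨v, hvD, by omega, by omega⟩
      by_contra hcon
      push Not at hcon
      have hmem : insert v D ∈ P := by
        simp only [P, Finset.mem_filter, Finset.mem_powerset]
        refine ⟨Finset.insert_subset hv hDf, ?_, ?_⟩
        · simp only [Finset.mem_insert, not_or]
          exact ⟨fun h => hvz h.symm, hDz⟩
        · intro a ha b hb hab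
          rcases Finset.mem_insert.mp ha with ha' | ha'
          · rcases Finset.mem_insert.mp hb with hb' | hb'
            · exact absurd (ha'.trans hb'.symm) hab
            · subst ha'
              by_cases h : G.h a ≤ G.h b + 1
              · exact Or.inl (hcon b hb' h)
              · exact Or.inr (by omega)
          · rcases Finset.mem_insert.mp hb with hb' | hb'
            · subst hb'
              by_cases h : G.h b ≤ G.h a + 1
              · exact Or.inr (hcon a ha' h)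
              · exact Or.inl (by omega)
            · exact hDfar a ha' b hb' hab
      have := hmax _ hmem
      rw [Finset.card_insert_of_notMem hvD] at this
      omega
    -- enumerate D
    obtain ⟨d, hd⟩ : ∃ d : Fin l → Fin n, ∀ x ∈ D, ∃ j, d j = x := by
      refine ⟨fun j => if h : (j : ℕ) < D.toList.length then D.toList[(j : ℕ)] else ⟨0, hn⟩, ?_⟩
      intro x hx
      obtain ⟨j, hj, hjx⟩ := List.mem_iff_getElem.mp (Finset.mem_toList.mpr hx)
      have hjl : j < l := by
        rw [Finset.length_toList] at hj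
        omega
      refine ⟨⟨j, hjl⟩, ?_⟩
      simp only [hj, dif_pos]
      exact hjx
    rw [Finset.mem_biUnion]
    refine ⟨d, Finset.mem_univ _, ?_⟩
    rw [Finset.mem_powerset]
    intro v hv
    by_cases hvz : v = G.z
    · subst hvz; exact Finset.mem_insert_self _ _
    · obtain ⟨x, hx, hx1, hx2⟩ := hcov v hv hvz
      obtain ⟨j, rfl⟩ := hd x hx
      refine Finset.mem_insert_of_mem ?_
      rw [Finset.mem_biUnion]
      exact ⟨j, Finset.mem_univ _, Finset.mem_filter.mpr ⟨Finset.mem_univ _, hvz, hx1, hx2⟩⟩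
  refine (Finset.card_le_card hsub).trans ?_
  refine Finset.card_biUnion_le.trans ?_
  refine (Finset.sum_le_card_nsmul _ _ (2 ^ (1 + l * (3 * G.B))) ?_).trans ?_
  · intro d _
    rw [Finset.card_powerset]
    exact Nat.pow_le_pow_right (by norm_num) (hnb d)
  · rw [Finset.card_univ, Fintype.card_fun, Fintype.card_fin, Fintype.card_fin, smul_eq_mul,
      Nat.mul_comm]

end Geo

end Pool.Agent.Helper74.HamSat
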